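import Pool.Agent.TP73.Defs

/-!
# Many matchings of long intervals
-/

set_option autoImplicit false

namespace Pool.Agent.TP73.BigS73

open Pool.Agent.MV68 Pool.Agent.TP73

/-- one term of `GG yc 0 0` -/
noncomputable def gt (i m : ℕ) : ENNReal :=
  if i ≤ 2 * m ∧ (0 + i) % 4 = 0 ∧ (2 * m) % 4 = (0 + i) % 4 then
    (cc (-(i : ℤ)) m : ENNReal) * yc ^ m else 0

theorem gt_ne_top (i m : ℕ) : gt i m ≠ ⊤ := by
  unfold gt
  split_ifs
  · exact ENNReal.mul_ne_top (ENNReal.natCast_ne_top _) (ENNReal.pow_ne_top ENNReal.ofReal_ne_top)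
  · exact ENNReal.zero_ne_top

theorem row (m : ℕ) : ∑' i, gt i m = ∑ i ∈ Finset.range (2 * m + 1), gt i m := by
  refine tsum_eq_sum fun i hi => ?_
  unfold gt
  rw [if_neg]
  rintro ⟨h, _⟩
  exact hi (Finset.mem_range.2 (by omega))

theorem big_S (h : GG yc 0 0 = ⊤) (x : ℝ) (hx0 : 0 < x) (hx : x < 3 / √2) (K : ℕ) :
    ∃ i m : ℕ, i ≤ 2 * m ∧ i % 4 = 0 ∧ (2 * m) % 4 = 0 ∧ K ≤ m ∧ x ^ m ≤ (cc (-(i : ℤ)) m : ℝ) := by
  by_contra hcon
  push Not at hcon
  have hs : (0:ℝ) < √2 := by positivity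
  have hr0 : 0 ≤ x * (√2 / 3) := by positivity
  have hr1 : x * (√2 / 3) < 1 := by
    rw [lt_div_iff₀ hs] at hx
    linarith
  have hsum : Summable (fun m : ℕ => ((2 * m + 1 : ℕ) : ℝ) * (x * (√2 / 3)) ^ m) := by
    have h1 := summable_pow_mul_geometric_of_norm_lt_one 1
      (r := x * (√2 / 3)) (by rw [Real.norm_of_nonneg hr0]; exact hr1)
    have h2 := summable_geometric_of_lt_one hr0 hr1
    refine ((h1.mul_left 2).add h2).congr fun m => ?_
    push_cast
    ring
  have hG : GG yc 0 0 = ∑' i, ∑' m, gt i m := rfl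
  rw [hG, ENNReal.tsum_comm] at h
  simp only [row] at h
  have hle : ∑' m, ∑ i ∈ Finset.range (2 * m + 1), gt i m ≤
      ∑' m, ((if m < K then ∑ i ∈ Finset.range (2 * m + 1), gt i m else 0) +
        ENNReal.ofReal (((2 * m + 1 : ℕ) : ℝ) * (x * (√2 / 3)) ^ m)) := by
    refine ENNReal.tsum_le_tsum fun m => ?_
    by_cases hm : m < K
    · rw [if_pos hm]
      exact le_self_add
    · rw [if_neg hm, zero_add]
      calc ∑ i ∈ Finset.range (2 * m + 1), gt i m
          ≤ ∑ i ∈ Finset.range (2 * m + 1), ENNReal.ofReal ((x * (√2 / 3)) ^ m) := by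
            refine Finset.sum_le_sum fun i _ => ?_
            unfold gt
            split_ifs with hc
            · have h3 := hcon i m hc.1 (by omega) (by omega) (by omega)
              unfold yc
              rw [← ENNReal.ofReal_natCast, ← ENNReal.ofReal_pow (by positivity),
                ← ENNReal.ofReal_mul (by positivity), mul_pow]
              exact ENNReal.ofReal_le_ofReal (mul_le_mul_of_nonneg_right h3.le (by positivity))
            · exact zero_le
        _ = ENNReal.ofReal (((2 * m + 1 : ℕ) : ℝ) * (x * (√2 / 3)) ^ m) := by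
            rw [Finset.sum_const, Finset.card_range, nsmul_eq_mul,
              ENNReal.ofReal_mul (by positivity), ENNReal.ofReal_natCast]
  rw [h, ENNReal.tsum_add] at hle
  have f1 : ∑' m, (if m < K then ∑ i ∈ Finset.range (2 * m + 1), gt i m else 0) ≠ ⊤ := by
    rw [tsum_eq_sum (s := Finset.range K) (fun m hm => if_neg (fun h' => hm (Finset.mem_range.2 h')))]
    refine ENNReal.sum_ne_top.2 fun m _ => ?_
    split_ifs
    · exact ENNReal.sum_ne_top.2 fun i _ => gt_ne_top i m
    · exact ENNReal.zero_ne_top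
  have f2 := hsum.tsum_ofReal_ne_top
  exact ENNReal.add_ne_top.2 ⟨f1, f2⟩ (top_le_iff.1 hle)

end Pool.Agent.TP73.BigS73
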