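import Pool.Agent.TP73.Defs

/-!
# Rounding the left part up to a multiple of 8
-/

set_option autoImplicit false

namespace Pool.Agent.TP73

open Pool.Agent.MV68

theorem bigS98_mono {i m : ℕ} (hi : i % 4 = 0) :
    cc (-(i : ℤ)) m ≤ cc (-((i + 4 : ℕ) : ℤ)) (m + 2) := by
  unfold cc
  have h1 := lw_super (fun z : ℕ => hh (-((i + 4 : ℕ) : ℤ) + z)) m 2 0
  have e1 : cm (fun z : ℕ => hh (-((i + 4 : ℕ) : ℤ) + z)) m (0 + 2 * 2) =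
      cm (fun z : ℕ => hh (-(i : ℤ) + z)) m 0 := by
    apply lw_congr
    intro j _
    have e : ∀ j : ℕ, (-((i + 4 : ℕ) : ℤ) + ((0 + 2 * 2 + j : ℕ) : ℤ)) = -(i : ℤ) + ((0 + j : ℕ) : ℤ) := by
      intro j
      push_cast
      ring
    have h2 := e j
    have h3 := e 0
    simp only [add_zero] at h3
    show hh (-((i + 4 : ℕ) : ℤ) + ((0 + 2 * 2 + j : ℕ) : ℤ)) -
        hh (-((i + 4 : ℕ) : ℤ) + ((0 + 2 * 2 : ℕ) : ℤ)) =
      hh (-(i : ℤ) + ((0 + j : ℕ) : ℤ)) - hh (-(i : ℤ) + ((0 : ℕ) : ℤ))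
    rw [h2, h3]
  have e2 : 1 ≤ cm (fun z : ℕ => hh (-((i + 4 : ℕ) : ℤ) + z)) 2 0 := by
    rw [lw_cm_succ]
    have hh0 : hh (-((i + 4 : ℕ) : ℤ) + ((0 : ℕ) : ℤ)) = 0 := by
      unfold hh al
      rw [if_pos (by push_cast; omega), if_pos (by push_cast; omega)]
    have hh1 : hh (-((i + 4 : ℕ) : ℤ) + ((1 : ℕ) : ℤ)) = 1 := by
      unfold hh al
      rw [if_pos (by push_cast; omega), if_neg (by push_cast; omega), if_neg (by push_cast; omega)]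
    have hh2 : hh (-((i + 4 : ℕ) : ℤ) + ((2 : ℕ) : ℤ)) = 2 := by
      unfold hh al
      rw [if_pos (by push_cast; omega), if_neg (by push_cast; omega), if_pos (by push_cast; omega)]
    have hh3 : hh (-((i + 4 : ℕ) : ℤ) + ((3 : ℕ) : ℤ)) = 1 := by
      unfold hh al
      rw [if_pos (by push_cast; omega), if_neg (by push_cast; omega), if_neg (by push_cast; omega)]
    have h4 : (if (fun z : ℕ => hh (-((i + 4 : ℕ) : ℤ) + z)) (0 + 2 * 1 + 1) =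
          (fun z : ℕ => hh (-((i + 4 : ℕ) : ℤ) + z)) 0 + 1 then
        cm (fun z : ℕ => hh (-((i + 4 : ℕ) : ℤ) + z)) 1 (0 + 1) *
          cm (fun z : ℕ => hh (-((i + 4 : ℕ) : ℤ) + z)) (1 - 1) (0 + 2 * 1 + 2) else 0) = 1 := by
      have e3 : (fun z : ℕ => hh (-((i + 4 : ℕ) : ℤ) + z)) (0 + 2 * 1 + 1) =
          (fun z : ℕ => hh (-((i + 4 : ℕ) : ℤ) + z)) 0 + 1 := by
        show hh (-((i + 4 : ℕ) : ℤ) + ((3 : ℕ) : ℤ)) = hh (-((i + 4 : ℕ) : ℤ) + ((0 : ℕ) : ℤ)) + 1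
        rw [hh0, hh3]
        rfl
      rw [if_pos e3, lw_one, Nat.sub_self, cm_zero]
      show hh (-((i + 4 : ℕ) : ℤ) + ((2 : ℕ) : ℤ)) = hh (-((i + 4 : ℕ) : ℤ) + ((1 : ℕ) : ℤ)) + 1
      rw [hh1, hh2]
      rfl
    refine le_trans (le_of_eq h4.symm) ?_
    exact Finset.single_le_sum (f := fun k => if (fun z : ℕ => hh (-((i + 4 : ℕ) : ℤ) + z)) (0 + 2 * k + 1) =
          (fun z : ℕ => hh (-((i + 4 : ℕ) : ℤ) + z)) 0 + 1 then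
        cm (fun z : ℕ => hh (-((i + 4 : ℕ) : ℤ) + z)) k (0 + 1) *
          cm (fun z : ℕ => hh (-((i + 4 : ℕ) : ℤ) + z)) (1 - k) (0 + 2 * k + 2) else 0)
      (fun _ _ => Nat.zero_le _) (Finset.mem_range.2 (by norm_num : 1 < 1 + 1))
  rw [e1] at h1
  have e4 : m + 2 = 2 + m := by omega
  rw [e4]
  refine le_trans ?_ h1
  calc cm (fun z : ℕ => hh (-(i : ℤ) + z)) m 0 = 1 * cm (fun z : ℕ => hh (-(i : ℤ) + z)) m 0 := by
        rw [one_mul]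
    _ ≤ _ := Nat.mul_le_mul_right _ e2

theorem bigS98_iter {i m : ℕ} (hi : i % 4 = 0) (t : ℕ) :
    cc (-(i : ℤ)) m ≤ cc (-((i + 4 * t : ℕ) : ℤ)) (m + 2 * t) := by
  induction t with
  | zero => exact le_rfl
  | succ t ih =>
    refine ih.trans ?_
    have h := bigS98_mono (i := i + 4 * t) (m := m + 2 * t) (by omega)
    have e1 : i + 4 * (t + 1) = i + 4 * t + 4 := by ring
    have e2 : m + 2 * (t + 1) = m + 2 * t + 2 := by ring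
    rw [e1, e2]
    exact h

/-- `x ^ (m + 4) ≤ x' ^ m` for large `m` -/
theorem bigS98_pow {x x' : ℝ} (hx0 : 0 < x) (hxx : x < x') :
    ∃ M : ℕ, ∀ m ≥ M, ∀ t ≤ 4, x ^ (m + t) ≤ x' ^ m := by
  have hr : 1 < x' / x := by rwa [one_lt_div hx0]
  obtain ⟨M, hM⟩ := pow_unbounded_of_one_lt ((max x 1) ^ 4) hr
  refine ⟨M, fun m hm t ht => ?_⟩
  have h1 : (x' / x) ^ M ≤ (x' / x) ^ m := pow_le_pow_right₀ hr.le hm
  have h2 : x ^ t ≤ (max x 1) ^ 4 := by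
    calc x ^ t ≤ (max x 1) ^ t := pow_le_pow_left₀ hx0.le (le_max_left _ _) t
      _ ≤ (max x 1) ^ 4 := pow_le_pow_right₀ (le_max_right _ _) ht
  have h3 : x ^ t ≤ (x' / x) ^ m := h2.trans (hM.le.trans h1)
  rw [div_pow, le_div_iff₀ (pow_pos hx0 m)] at h3
  rw [pow_add, mul_comm]
  exact h3

theorem bigS98 (hbig : ∀ x : ℝ, 0 < x → x < 3 / √2 → ∀ K : ℕ,
      ∃ i m : ℕ, i ≤ 2 * m ∧ i % 4 = 0 ∧ (2 * m) % 4 = 0 ∧ K ≤ m ∧ x ^ m ≤ (cc (-(i : ℤ)) m : ℝ))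
    (x : ℝ) (hx0 : 0 < x) (hx : x < 3 / √2) (K : ℕ) :
    ∃ u r : ℕ, 1 ≤ u ∧ K ≤ u + r ∧
      x ^ (4 * u + 2 * r) ≤ (cc (-((8 * u : ℕ) : ℤ)) (4 * u + 2 * r) : ℝ) := by
  obtain ⟨x', hx1, hx2⟩ := exists_between hx
  obtain ⟨M, hM⟩ := bigS98_pow hx0 hx1
  obtain ⟨i, m, h1, h2, h3, h4, h5⟩ := hbig x' (hx0.trans hx1) hx2 (max M (4 * K + 4))
  have h6 : M ≤ m := (le_max_left _ _).trans h4
  have h7 : 4 * K + 4 ≤ m := (le_max_right _ _).trans h4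
  obtain ⟨t, ht, u, hu, hu1⟩ : ∃ t ≤ 2, ∃ u, i + 4 * t = 8 * u ∧ 1 ≤ u := by
    rcases Nat.lt_or_ge i 8 with h8 | h8
    · rcases (by omega : i = 0 ∨ i = 4) with h9 | h9
      · exact ⟨2, le_rfl, 1, by omega, le_rfl⟩
      · exact ⟨1, by norm_num, 1, by omega, le_rfl⟩
    · rcases (by omega : i % 8 = 0 ∨ i % 8 = 4) with h9 | h9
      · exact ⟨0, by norm_num, i / 8, by omega, by omega⟩
      · exact ⟨1, by norm_num, (i + 4) / 8, by omega, by omega⟩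
  obtain ⟨r, hr⟩ : ∃ r, m + 2 * t = 4 * u + 2 * r := ⟨(m + 2 * t - 4 * u) / 2, by omega⟩
  refine ⟨u, r, hu1, by omega, ?_⟩
  have h8 := bigS98_iter (i := i) (m := m) h2 t
  rw [hu, hr] at h8
  have h9 : x ^ (m + 2 * t) ≤ x' ^ m := hM m h6 (2 * t) (by omega)
  rw [hr] at h9
  have h10 : (cc (-(i : ℤ)) m : ℝ) ≤ (cc (-((8 * u : ℕ) : ℤ)) (4 * u + 2 * r) : ℝ) := by
    exact_mod_cast h8
  exact h9.trans (h5.trans h10)

end Pool.Agent.TP73
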