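import Pool.Agent.TP73.Defs
import Pool.Agent.TP73.BigS98
import Pool.Agent.TP73.BigS73

/-!
# Many matchings of long intervals

`big`: otherwise `cc (-i) m < x ^ m` for all `i ≤ 2 m` with `4 ∣ i`, `4 ∣ 2 m` and `m ≥ K`; then
`GG yc 0 0 = ∑ m, ∑ i ≤ 2 m, ... ≤ (finitely many finite terms) + ∑ m (2 m + 1) (x √2 / 3) ^ m < ⊤`
(`ENNReal.tsum_comm`; `x √2 / 3 < 1`).

`cc_mono`: the first four positions `0 1 2 1` can be matched among themselves (`lw_super`).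

`big8`: the length `i` of the left part can be rounded up to a multiple `8 u` of 8, `u ≥ 1` (at most two
applications of `cc_mono`), the factor `x ^ 4` is absorbed by passing from a larger `x'` to `x`.
-/

set_option autoImplicit false

namespace Pool.Agent.TP73

open Pool.Agent.MV68

theorem big (h : GG yc 0 0 = ⊤) (x : ℝ) (hx0 : 0 < x) (hx : x < 3 / √2) (K : ℕ) :
    ∃ i m : ℕ, i ≤ 2 * m ∧ i % 4 = 0 ∧ (2 * m) % 4 = 0 ∧ K ≤ m ∧ x ^ m ≤ (cc (-(i : ℤ)) m : ℝ) :=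
  BigS73.big_S h x hx0 hx K

theorem cc_mono {i m : ℕ} (hi : i % 4 = 0) : cc (-(i : ℤ)) m ≤ cc (-((i + 4 : ℕ) : ℤ)) (m + 2) :=
  bigS98_mono hi

theorem big8 (h : GG yc 0 0 = ⊤) (x : ℝ) (hx0 : 0 < x) (hx : x < 3 / √2) (K : ℕ) :
    ∃ u r : ℕ, 1 ≤ u ∧ K ≤ u + r ∧ x ^ (4 * u + 2 * r) ≤ (cc (-((8 * u : ℕ) : ℤ)) (4 * u + 2 * r) : ℝ) :=
  bigS98 (fun x hx0 hx K => big h x hx0 hx K) x hx0 hx K

end Pool.Agent.TP73
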