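import Pool.Agent.TP73.Defs

/-!
# TP73/BlockL6: a block of the periodic word has at least `cc` matchings
-/

set_option autoImplicit false

namespace Pool.Agent.TP73

open Pool.Agent.MV68

theorem wrap6 (th : ℕ → ℤ) (m a : ℕ) (h : th (a + 2 * m + 1) = th a + 1) :
    cm th m (a + 1) ≤ cm th (m + 1) a := by
  rw [lw_cm_succ]
  refine le_trans (le_of_eq ?_) (Finset.single_le_sum (f := fun i =>
    if th (a+2*i+1) = th a + 1 then cm th i (a+1) * cm th (m-i) (a+2*i+2) else 0)
    (fun i _ => Nat.zero_le _) (Finset.mem_range.2 (Nat.lt_succ_self m)))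
  rw [if_pos h, Nat.sub_self, cm_zero, mul_one]

theorem pair6 (th : ℕ → ℤ) (m a : ℕ) (h : th (a + 1) = th a + 1) :
    cm th m (a + 2) ≤ cm th (m + 1) a := by
  have h1 := lw_super th m 1 a
  rw [lw_one th a h, one_mul, mul_one, add_comm 1 m] at h1
  exact h1

theorem block_le_P {T : ℕ → ℤ} {a s r : ℕ} (hs : 1 ≤ s)
    (hA : ∀ z : ℕ, z < 4 * s + 3 → T (a + z) = al (z + 1))
    (hB : ∀ z : ℕ, 4 * s + 3 ≤ z → z < 4 * s + 4 * r + 6 → T (a + z) = be (z + 1)) :
    cc (-((4 * (s - 1) : ℕ) : ℤ)) (2 * (s - 1) + 2 * r) ≤ cm T (2 * s + 2 * r + 3) a := by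
  obtain ⟨k, hk⟩ : ∃ k, k = 2 * (s - 1) + 2 * r := ⟨_, rfl⟩
  have t0 : T (a + 0) = 1 := by rw [hA 0 (by omega)]; unfold al; norm_num
  have t1 : T (a + 1) = 2 := by rw [hA 1 (by omega)]; unfold al; norm_num
  have t2 : T (a + 2) = 1 := by rw [hA 2 (by omega)]; unfold al; norm_num
  have t3 : T (a + 3) = 0 := by rw [hA 3 (by omega)]; unfold al; norm_num
  have t4 : T (a + 4) = 1 := by rw [hA 4 (by omega)]; unfold al; norm_num
  have t5 : T (a + 5) = 2 := by rw [hA 5 (by omega)]; unfold al; norm_num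
  have t6 : T (a + 6) = 1 := by rw [hA 6 (by omega)]; unfold al; norm_num
  have l0 : T (a + (4 * s + 4 * r + 5)) = 2 := by
    rw [hB _ (by omega) (by omega)]; unfold be; push_cast
    rw [if_neg (by omega), if_neg (by omega)]
  have l1 : T (a + (4 * s + 4 * r + 4)) = 1 := by
    rw [hB _ (by omega) (by omega)]; unfold be; push_cast
    rw [if_pos (by omega)]
  have l2 : T (a + (4 * s + 4 * r + 3)) = 2 := by
    rw [hB _ (by omega) (by omega)]; unfold be; push_cast
    rw [if_neg (by omega), if_neg (by omega)]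
  rw [add_zero] at t0
  have e1 : cm T (k + 4) (a + 2) ≤ cm T (k + 5) a := pair6 T (k + 4) a (by rw [t1, t0]; norm_num)
  have e2 : cm T (k + 3) (a + 3) ≤ cm T (k + 4) (a + 2) := by
    refine wrap6 T (k + 3) (a + 2) ?_
    rw [t2, show a + 2 + 2 * (k + 3) + 1 = a + (4 * s + 4 * r + 5) by omega, l0]
    norm_num
  have e3 : cm T (k + 2) (a + 4) ≤ cm T (k + 3) (a + 3) := by
    refine wrap6 T (k + 2) (a + 3) ?_
    rw [t3, show a + 3 + 2 * (k + 2) + 1 = a + (4 * s + 4 * r + 4) by omega, l1]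
    norm_num
  have e4 : cm T (k + 1) (a + 6) ≤ cm T (k + 2) (a + 4) :=
    pair6 T (k + 1) (a + 4) (by rw [show a + 4 + 1 = a + 5 by rfl, t5, t4]; norm_num)
  have e5 : cm T k (a + 7) ≤ cm T (k + 1) (a + 6) := by
    refine wrap6 T k (a + 6) ?_
    rw [t6, show a + 6 + 2 * k + 1 = a + (4 * s + 4 * r + 3) by omega, l2]
    norm_num
  have key : ∀ i, i < 2 * k → T (a + 7 + i) = hh (-((4 * (s - 1) : ℕ) : ℤ) + i) := by
    intro i hi
    unfold hh
    by_cases h : i < 4 * s - 4
    · rw [if_pos (by omega), add_assoc, hA (7 + i) (by omega)]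
      refine al_congr ?_
      push_cast
      omega
    · rw [if_neg (by omega), add_assoc, hB (7 + i) (by omega) (by omega)]
      refine be_congr ?_
      push_cast
      omega
  have e6 : cc (-((4 * (s - 1) : ℕ) : ℤ)) k = cm T k (a + 7) := by
    unfold cc
    refine lw_congr k 0 (a + 7) fun i hi => ?_
    have h1 := key i hi
    have h2 := key 0 (by omega)
    rw [add_zero] at h2
    rw [h1, h2]
    simp
  rw [← hk, e6, show 2 * s + 2 * r + 3 = k + 5 by omega]
  exact e5.trans (e4.trans (e3.trans (e2.trans e1)))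

end Pool.Agent.TP73
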