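import Pool.Agent.TP73.Defs

/-!
# Blocks: positivity (`cm_wrap`, `block_pos`, `tail_pos` for TP73/Block)
-/

set_option autoImplicit false

namespace Pool.Agent.TP73.BlockP

open Pool.Agent.MV68 Pool.Agent.TP73

/-- an outer chord -/
theorem cm_wrap (th : ℕ → ℤ) (m a : ℕ) (h : th (a + 2 * m + 1) = th a + 1) :
    cm th m (a + 1) ≤ cm th (m + 1) a := by
  rw [lw_cm_succ]
  have h1 := Finset.single_le_sum (s := Finset.range (m + 1))
    (f := fun i => if th (a + 2 * i + 1) = th a + 1 then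
      cm th i (a + 1) * cm th (m - i) (a + 2 * i + 2) else 0) (fun i _ => Nat.zero_le _)
    (Finset.mem_range.2 (Nat.lt_succ_self m))
  simp only [if_pos h, Nat.sub_self, cm_zero, mul_one] at h1
  exact h1

theorem quad {T : ℕ → ℤ} {b : ℕ} (h1 : T (b + 3) = T b + 1) (h2 : T (b + 2) = T (b + 1) + 1) :
    1 ≤ cm T 2 b := by
  have h3 := cm_wrap T 1 b h1
  rw [lw_one T (b + 1) h2] at h3
  exact h3

theorem quads {T : ℕ → ℤ} (k : ℕ) : ∀ b : ℕ, (∀ j, j < k → T (b + 4 * j + 3) = T (b + 4 * j) + 1 ∧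
    T (b + 4 * j + 2) = T (b + 4 * j + 1) + 1) → 1 ≤ cm T (2 * k) b := by
  induction k with
  | zero => intro b _; rw [mul_zero, cm_zero]
  | succ k ih =>
    intro b h
    have h1 := ih b fun j hj => h j (by omega)
    obtain ⟨h2, h3⟩ := h k (by omega)
    have h4 := quad h2 h3
    have h5 := lw_super T 2 (2 * k) b
    have e : b + 2 * (2 * k) = b + 4 * k := by ring
    rw [e] at h5
    have e2 : 2 * (k + 1) = 2 * k + 2 := by ring
    rw [e2]
    exact le_trans (Nat.mul_le_mul h1 h4) h5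

theorem al0 {x : ℤ} (h : x % 4 = 0) : al x = 0 := by unfold al; rw [if_pos h]

theorem al1 {x : ℤ} (h : x % 4 = 1 ∨ x % 4 = 3) : al x = 1 := by
  unfold al; rw [if_neg (by omega), if_neg (by omega)]

theorem al2 {x : ℤ} (h : x % 4 = 2) : al x = 2 := by
  unfold al; rw [if_neg (by omega), if_pos h]

theorem be1 {x : ℤ} (h : x % 4 = 1) : be x = 1 := by unfold be; rw [if_pos h]

theorem be2 {x : ℤ} (h : x % 4 = 0 ∨ x % 4 = 2) : be x = 2 := by
  unfold be; rw [if_neg (by omega), if_neg (by omega)]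

theorem be3 {x : ℤ} (h : x % 4 = 3) : be x = 3 := by
  unfold be; rw [if_neg (by omega), if_pos h]

theorem block_pos {T : ℕ → ℤ} {a s r : ℕ} (hs : 1 ≤ s)
    (hA : ∀ z : ℕ, z < 4 * s + 3 → T (a + z) = al (z + 1))
    (hB : ∀ z : ℕ, 4 * s + 3 ≤ z → z < 4 * s + 4 * r + 6 → T (a + z) = be (z + 1)) :
    1 ≤ cm T (2 * s + 2 * r + 3) a := by
  have A0 : ∀ z : ℕ, z < 4 * s + 3 → z % 4 = 3 → T (a + z) = 0 := fun z hz h => by
    rw [hA z hz, al0 (by omega)]
  have A1 : ∀ z : ℕ, z < 4 * s + 3 → (z % 4 = 0 ∨ z % 4 = 2) → T (a + z) = 1 := fun z hz h => by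
    rw [hA z hz, al1 (by omega)]
  have A2 : ∀ z : ℕ, z < 4 * s + 3 → z % 4 = 1 → T (a + z) = 2 := fun z hz h => by
    rw [hA z hz, al2 (by omega)]
  have B1 : ∀ z : ℕ, 4 * s + 3 ≤ z → z < 4 * s + 4 * r + 6 → z % 4 = 0 → T (a + z) = 1 :=
    fun z h1 h2 h => by rw [hB z h1 h2, be1 (by omega)]
  have B2 : ∀ z : ℕ, 4 * s + 3 ≤ z → z < 4 * s + 4 * r + 6 → (z % 4 = 1 ∨ z % 4 = 3) →
      T (a + z) = 2 := fun z h1 h2 h => by rw [hB z h1 h2, be2 (by omega)]
  have B3 : ∀ z : ℕ, 4 * s + 3 ≤ z → z < 4 * s + 4 * r + 6 → z % 4 = 2 → T (a + z) = 3 :=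
    fun z h1 h2 h => by rw [hB z h1 h2, be3 (by omega)]
  -- the quadruples inside
  have q : 1 ≤ cm T (2 * (s - 1 + r)) (a + 7) := by
    refine quads _ _ fun j hj => ?_
    have e3 : a + 7 + 4 * j + 3 = a + (4 * j + 10) := by ring
    have e0 : a + 7 + 4 * j = a + (4 * j + 7) := by ring
    have e2 : a + 7 + 4 * j + 2 = a + (4 * j + 9) := by ring
    have e1 : a + 7 + 4 * j + 1 = a + (4 * j + 8) := by ring
    rw [e3, e2, e1, e0]
    rcases Nat.lt_or_ge j (s - 1) with h | h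
    · rw [A1 (4 * j + 10) (by omega) (by omega), A0 (4 * j + 7) (by omega) (by omega),
        A2 (4 * j + 9) (by omega) (by omega), A1 (4 * j + 8) (by omega) (by omega)]
      norm_num
    · rw [B3 (4 * j + 10) (by omega) (by omega) (by omega),
        B2 (4 * j + 7) (by omega) (by omega) (by omega),
        B2 (4 * j + 9) (by omega) (by omega) (by omega),
        B1 (4 * j + 8) (by omega) (by omega) (by omega)]
      norm_num
  -- chord (6, last - 2)
  have c1 : 1 ≤ cm T (2 * (s - 1 + r) + 1) (a + 6) := by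
    refine le_trans q (cm_wrap T _ (a + 6) ?_)
    have e : a + 6 + 2 * (2 * (s - 1 + r)) + 1 = a + (4 * s + 4 * r + 3) := by omega
    rw [e, B2 (4 * s + 4 * r + 3) (by omega) (by omega) (by omega),
      A1 6 (by omega) (by omega)]
    norm_num
  -- pair (4, 5)
  have c2 : 1 ≤ cm T (1 + (2 * (s - 1 + r) + 1)) (a + 4) := by
    refine le_trans ?_ (lw_super T (2 * (s - 1 + r) + 1) 1 (a + 4))
    rw [lw_one T (a + 4) (by
      have e : a + 4 + 1 = a + 5 := by ring
      rw [e, A2 5 (by omega) (by omega), A1 4 (by omega) (by omega)]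
      norm_num), one_mul]
    exact c1
  have c3 : 1 ≤ cm T (1 + (2 * (s - 1 + r) + 1) + 1) (a + 3) := by
    refine le_trans c2 (cm_wrap T _ (a + 3) ?_)
    have e : a + 3 + 2 * (1 + (2 * (s - 1 + r) + 1)) + 1 = a + (4 * s + 4 * r + 4) := by omega
    rw [e, B1 (4 * s + 4 * r + 4) (by omega) (by omega) (by omega),
      A0 3 (by omega) (by omega)]
    norm_num
  have c4 : 1 ≤ cm T (1 + (2 * (s - 1 + r) + 1) + 1 + 1) (a + 2) := by
    refine le_trans c3 (cm_wrap T _ (a + 2) ?_)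
    have e : a + 2 + 2 * (1 + (2 * (s - 1 + r) + 1) + 1) + 1 = a + (4 * s + 4 * r + 5) := by omega
    rw [e, B2 (4 * s + 4 * r + 5) (by omega) (by omega) (by omega),
      A1 2 (by omega) (by omega)]
    norm_num
  have c5 : 1 ≤ cm T (1 + (1 + (2 * (s - 1 + r) + 1) + 1 + 1)) a := by
    refine le_trans ?_ (lw_super T (1 + (2 * (s - 1 + r) + 1) + 1 + 1) 1 a)
    rw [lw_one T a (by
      have h0 := A1 0 (by omega) (by omega)
      rw [add_zero] at h0
      rw [A2 1 (by omega) (by omega), h0]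
      norm_num), one_mul]
    exact c4
  have e : 1 + (1 + (2 * (s - 1 + r) + 1) + 1 + 1) = 2 * s + 2 * r + 3 := by omega
  rw [e] at c5
  exact c5

theorem tail_pos {T : ℕ → ℤ} {a u : ℕ} (hA : ∀ z : ℕ, z < 4 * u + 2 → T (a + z) = al (z + 1)) :
    1 ≤ cm T (2 * u + 1) a := by
  have q : 1 ≤ cm T (2 * u) (a + 2) := by
    refine quads _ _ fun j hj => ?_
    have e3 : a + 2 + 4 * j + 3 = a + (4 * j + 5) := by ring
    have e0 : a + 2 + 4 * j = a + (4 * j + 2) := by ring
    have e2 : a + 2 + 4 * j + 2 = a + (4 * j + 4) := by ring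
    have e1 : a + 2 + 4 * j + 1 = a + (4 * j + 3) := by ring
    rw [e3, e2, e1, e0, hA (4 * j + 5) (by omega), hA (4 * j + 2) (by omega),
      hA (4 * j + 4) (by omega), hA (4 * j + 3) (by omega), al2 (by omega), al1 (by omega),
      al1 (by omega), al0 (by omega)]
    norm_num
  have h1 := lw_super T (2 * u) 1 a
  rw [lw_one T a (by
    have h0 := hA 0 (by omega)
    rw [add_zero] at h0
    rw [hA 1 (by omega), h0, al2 (by norm_num), al1 (by norm_num)]
    norm_num), one_mul] at h1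
  have e : 2 * u + 1 = 1 + 2 * u := by ring
  rw [e]
  exact le_trans q h1

end Pool.Agent.TP73.BlockP
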