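import Pool.Agent.TP73.Defs
import Pool.Agent.TP73.BlockP
import Pool.Agent.TP73.BlockL6

/-!
# Blocks

`block_le`: the block at `a` has the heights `1 2 1 (0 1 2 1)^s` (`4 s + 3` positions, `T (a + z) = al (z + 1)`)
and then `(2 1 2 3)^r 2 1 2` (`4 r + 3` positions, `T (a + z) = be (z + 1)`), `s ≥ 1`. Five outer chords, in
this order: `(0, 1)` (heights 1, 2); `(2, last)` (heights 1, 2); `(3, last - 1)` (heights 0, 1); `(4, 5)`
(heights 1, 2); `(6, last - 2)` (heights 1, 2); inside are the `4 (s - 1) + 4 r` positions from `a + 7` on,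
with the heights of `hh` around the junction (`lw_congr`). An outer chord: `cm th m (a + 1) ≤ cm th (m + 1) a` if
`th (a + 2 m + 1) = th a + 1` (last term of `lw_cm_succ`); a pair `(a, a + 1)`: `lw_super` and `lw_one`.

`block_pos`: the same block has at least one matching (`(0 1 2 1)`, `(2 1 2 3)` can be matched).

`tail_pos`: the heights `1 2 1 0 1 2 ... ` (`4 u + 2` positions) can be matched: `(1 2)`, then `1 (0 1) 2`.
-/

set_option autoImplicit false

namespace Pool.Agent.TP73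

open Pool.Agent.MV68

/-- an outer chord -/
theorem cm_wrap (th : ℕ → ℤ) (m a : ℕ) (h : th (a + 2 * m + 1) = th a + 1) :
    cm th m (a + 1) ≤ cm th (m + 1) a :=
  BlockP.cm_wrap th m a h

theorem block_le {T : ℕ → ℤ} {a s r : ℕ} (hs : 1 ≤ s)
    (hA : ∀ z : ℕ, z < 4 * s + 3 → T (a + z) = al (z + 1))
    (hB : ∀ z : ℕ, 4 * s + 3 ≤ z → z < 4 * s + 4 * r + 6 → T (a + z) = be (z + 1)) :
    cc (-((4 * (s - 1) : ℕ) : ℤ)) (2 * (s - 1) + 2 * r) ≤ cm T (2 * s + 2 * r + 3) a :=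
  block_le_P hs hA hB

theorem block_pos {T : ℕ → ℤ} {a s r : ℕ} (hs : 1 ≤ s)
    (hA : ∀ z : ℕ, z < 4 * s + 3 → T (a + z) = al (z + 1))
    (hB : ∀ z : ℕ, 4 * s + 3 ≤ z → z < 4 * s + 4 * r + 6 → T (a + z) = be (z + 1)) :
    1 ≤ cm T (2 * s + 2 * r + 3) a :=
  BlockP.block_pos hs hA hB

theorem tail_pos {T : ℕ → ℤ} {a u : ℕ} (hA : ∀ z : ℕ, z < 4 * u + 2 → T (a + z) = al (z + 1)) :
    1 ≤ cm T (2 * u + 1) a :=
  BlockP.tail_pos hA

end Pool.Agent.TP73
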