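import Pool.Agent.MV68.LbSeries
import Pool.Agent.MV68.LbWord

/-!
# Two plateaus of the zigzag: definitions (MP_15ecc6_co, `M(n) ≥ x ^ n` for every `x < 3 / √2`)

`al` = heights `0, 1, 2, 1` (period 4), `be` = heights `2, 1, 2, 3` (period 4; a zigzag one level higher).
`hh` = `al` on the negative, `be` on the nonnegative integers.
`cc x k` = number of up-matchings of the `2 k` positions `x, ..., x + 2 k - 1` for the heights `hh`.
`GG y a b` = generating function of the intervals `[-i, 2 m - i)` around the junction whose first
position is `≡ a` and whose next position is `≡ b` modulo 4.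
`WA`, `WB` = the same for intervals inside one plateau.
-/

set_option autoImplicit false

namespace Pool.Agent.TP73

open Pool.Agent.MV68

/-- heights of the lower plateau -/
def al (x : ℤ) : ℤ := if x % 4 = 0 then 0 else if x % 4 = 2 then 2 else 1

/-- heights of the upper plateau -/
def be (x : ℤ) : ℤ := if x % 4 = 1 then 1 else if x % 4 = 3 then 3 else 2

/-- the two-sided junction -/
def hh (x : ℤ) : ℤ := if x < 0 then al x else be x

/-- number of up-matchings of `2 k` positions from `x` on -/
def cc (x : ℤ) (k : ℕ) : ℕ := cm (fun z : ℕ => hh (x + z)) k 0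

/-- generating function of the intervals around the junction -/
noncomputable def GG (y : ENNReal) (a b : ℕ) : ENNReal :=
  ∑' i : ℕ, ∑' m : ℕ, if i ≤ 2 * m ∧ (a + i) % 4 = 0 ∧ (2 * m) % 4 = (b + i) % 4 then
    (cc (-(i : ℤ)) m : ENNReal) * y ^ m else 0

noncomputable def WA (y : ENNReal) (a b : ℕ) : ENNReal := Wg (fun z : ℕ => al z) 4 y a b

noncomputable def WB (y : ENNReal) (a b : ℕ) : ENNReal := Wg (fun z : ℕ => be z) 4 y a b

/-- the critical value `√2 / 3` -/
noncomputable def yc : ENNReal := ENNReal.ofReal (√2 / 3)

theorem al_add (x : ℤ) : al (x + 4) = al x := by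
  unfold al
  rw [Int.add_emod_right]

theorem be_add (x : ℤ) : be (x + 4) = be x := by
  unfold be
  rw [Int.add_emod_right]

theorem al_congr {x y : ℤ} (h : x % 4 = y % 4) : al x = al y := by
  unfold al
  rw [h]

theorem be_congr {x y : ℤ} (h : x % 4 = y % 4) : be x = be y := by
  unfold be
  rw [h]

theorem GG_add (y : ENNReal) (a b : ℕ) : GG y (a + 4) b = GG y a b := by
  unfold GG
  refine tsum_congr fun i => tsum_congr fun m => ?_
  have h : (a + 4 + i) % 4 = (a + i) % 4 := by omega
  rw [h]

/-- the heights of the symmetric periodic path with plateaus of `8 u + 7` and `4 r + 3` positions,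
centre of the lower plateau at `0` -/
def TT (u r : ℕ) (z : ℕ) : ℤ :=
  let w := z % (8 * u + 4 * r + 10)
  if w ≤ 4 * u + 3 then al w else if w ≤ 4 * u + 4 * r + 6 then be w else al (w + 2)

end Pool.Agent.TP73
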