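import Pool.Agent.TP73.LeftS

/-!
# First chord inside the lower plateau

Expand `WA y (a + 1) g * GG y (g + 1) b` as a triple series over `k` (the index of `Wg`) and `i', l` (the
indices of `GG`); it is the term `FF y a b (i' + 2 k + 1) k l`: the position `2 k - i = - i' - 1 < 0` is
`≡ g`, so `hh = al g`, `cc (- i) k = cm al k (a + 1)` by `cc_left` (the start `- i` is `≡ a + 1` because
`a + 1 + 2 k ≡ g` and `g + 1 + i' ≡ 0`), and `cc (2 k - i + 1) l = cc (- i') l`. Exchange the sums
(`ENNReal.tsum_comm`) and use the injection `i' ↦ i' + 2 k + 1`. For given `i, k` only one `g` counts.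
-/

set_option autoImplicit false

namespace Pool.Agent.TP73

open Pool.Agent.MV68

theorem left_le (y : ENNReal) (a b : ℕ) :
    y * (∑ g ∈ Finset.range 4, if al g = al a + 1 then WA y (a + 1) g * GG y (g + 1) b else 0) ≤
      ∑' i, ∑' k, ∑' l, if i ≤ 2 * k then 0 else FF y a b i k l :=
  left_le_S y a b

end Pool.Agent.TP73
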