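import Pool.Agent.TP73.Split

/-!
# First chord inside the lower plateau
-/

set_option autoImplicit false

namespace Pool.Agent.TP73

open Pool.Agent.MV68

/-- the terms after the substitution -/
noncomputable def lt1 (y : ENNReal) (a b g k i l : ℕ) : ENNReal :=
  if (al g = al a + 1 ∧ (a + 1 + 2 * k) % 4 = g) ∧ (i ≤ 2 * l ∧ (g + 1 + i) % 4 = 0 ∧
      (2 * l) % 4 = (b + i) % 4) then
    y * ((cm (fun z : ℕ => al z) k (a + 1) : ENNReal) * y ^ k * ((cc (-(i : ℤ)) l : ENNReal) * y ^ l))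
  else 0

theorem left_expand (y : ENNReal) (a b g : ℕ) :
    y * (if al g = al a + 1 then WA y (a + 1) g * GG y (g + 1) b else 0) =
      ∑' k, ∑' i, ∑' l, lt1 y a b g k i l := by
  by_cases h : al g = al a + 1
  · rw [if_pos h]
    unfold WA Wg GG
    rw [← ENNReal.tsum_mul_right, ← ENNReal.tsum_mul_left]
    refine tsum_congr fun k => ?_
    rw [← mul_assoc, ← ENNReal.tsum_mul_left]
    refine tsum_congr fun i => ?_
    rw [← ENNReal.tsum_mul_left]
    refine tsum_congr fun l => ?_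
    unfold lt1
    by_cases h1 : (a + 1 + 2 * k) % 4 = g
    · rw [if_pos h1]
      by_cases h2 : i ≤ 2 * l ∧ (g + 1 + i) % 4 = 0 ∧ (2 * l) % 4 = (b + i) % 4
      · rw [if_pos h2, if_pos ⟨⟨h, h1⟩, h2⟩, mul_assoc]
      · rw [if_neg h2, if_neg (fun h' => h2 h'.2), mul_zero]
    · rw [if_neg h1, mul_zero, zero_mul, if_neg (fun h' => h1 h'.1.2)]
  · rw [if_neg h, mul_zero]
    symm
    rw [ENNReal.tsum_eq_zero]
    intro k
    rw [ENNReal.tsum_eq_zero]
    intro i
    rw [ENNReal.tsum_eq_zero]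
    intro l
    unfold lt1
    rw [if_neg (fun h' => h h'.1.1)]

theorem left_term (y : ENNReal) (a b g k i l : ℕ)
    (h : (al g = al a + 1 ∧ (a + 1 + 2 * k) % 4 = g) ∧ (i ≤ 2 * l ∧ (g + 1 + i) % 4 = 0 ∧
      (2 * l) % 4 = (b + i) % 4)) :
    lt1 y a b g k i l = FF y a b (i + 2 * k + 1) k l := by
  obtain ⟨⟨h1, h2⟩, h3, h4, h5⟩ := h
  have e1 : (2 * (k : ℤ) - ((i + 2 * k + 1 : ℕ) : ℤ)) = -(i : ℤ) - 1 := by
    push_cast
    ring
  have e2 : (2 * (k : ℤ) - ((i + 2 * k + 1 : ℕ) : ℤ) + 1) = -(i : ℤ) := by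
    push_cast
    ring
  have e3 : hh (-(i : ℤ) - 1) = al a + 1 := by
    unfold hh
    rw [if_pos (by omega), ← h1]
    exact al_congr (by omega)
  have e4 : cc (-((i + 2 * k + 1 : ℕ) : ℤ)) k = cm (fun z : ℕ => al z) k (a + 1) := by
    refine cc_left ?_ (a + 1) ?_
    · push_cast
      omega
    · push_cast
      omega
  unfold lt1 FF
  rw [if_pos ⟨⟨h1, h2⟩, h3, h4, h5⟩, if_pos, e2, e4]
  · rw [pow_succ, pow_add]
    ring
  · refine ⟨⟨by omega, by omega, by omega⟩, ?_⟩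
    rw [e1, e3]

theorem left_sum (y : ENNReal) (a b k i l : ℕ) :
    ∑ g ∈ Finset.range 4, lt1 y a b g k i l ≤
      (if i + 2 * k + 1 ≤ 2 * k then 0 else FF y a b (i + 2 * k + 1) k l) := by
  rw [if_neg (by omega)]
  rw [Finset.sum_eq_single ((a + 1 + 2 * k) % 4)]
  · by_cases h : (al (((a + 1 + 2 * k) % 4 : ℕ) : ℤ) = al a + 1 ∧
        (a + 1 + 2 * k) % 4 = (a + 1 + 2 * k) % 4) ∧ (i ≤ 2 * l ∧
        ((a + 1 + 2 * k) % 4 + 1 + i) % 4 = 0 ∧ (2 * l) % 4 = (b + i) % 4)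
    · rw [left_term y a b _ k i l h]
    · unfold lt1
      rw [if_neg h]
      exact zero_le
  · intro g _ hg
    unfold lt1
    rw [if_neg]
    rintro ⟨⟨_, h⟩, _⟩
    exact hg h.symm
  · intro h
    exfalso
    apply h
    rw [Finset.mem_range]
    exact Nat.mod_lt _ (by norm_num)

theorem left_le_S (y : ENNReal) (a b : ℕ) :
    y * (∑ g ∈ Finset.range 4, if al g = al a + 1 then WA y (a + 1) g * GG y (g + 1) b else 0) ≤
      ∑' i, ∑' k, ∑' l, if i ≤ 2 * k then 0 else FF y a b i k l := by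
  rw [Finset.mul_sum]
  simp only [left_expand]
  have h1 : ∑ g ∈ Finset.range 4, ∑' k, ∑' i, ∑' l, lt1 y a b g k i l =
      ∑' k, ∑' i, ∑' l, ∑ g ∈ Finset.range 4, lt1 y a b g k i l := by
    rw [← Summable.tsum_finsetSum (fun _ _ => ENNReal.summable)]
    refine tsum_congr fun k => ?_
    rw [← Summable.tsum_finsetSum (fun _ _ => ENNReal.summable)]
    refine tsum_congr fun i => ?_
    rw [← Summable.tsum_finsetSum (fun _ _ => ENNReal.summable)]
  rw [h1, ENNReal.tsum_comm (f := fun i k => ∑' l, if i ≤ 2 * k then 0 else FF y a b i k l)]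
  refine ENNReal.tsum_le_tsum fun k => ?_
  refine le_trans ?_ (ENNReal.tsum_comp_le_tsum_of_injective (f := fun i : ℕ => i + 2 * k + 1) ?_
    (fun i => ∑' l, if i ≤ 2 * k then 0 else FF y a b i k l))
  · refine ENNReal.tsum_le_tsum fun i => ?_
    refine ENNReal.tsum_le_tsum fun l => ?_
    exact left_sum y a b k i l
  · intro i j hij
    simp only at hij
    omega

end Pool.Agent.TP73
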