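import Pool.Agent.TP73.Block

/-!
# The lower bound for the words of the symmetric periodic path (helper23 for helper73)
-/

set_option autoImplicit false

namespace Pool.Agent.TP73

open Pool.Agent.MV68

theorem TT_valS (u r q w : ℕ) (hw : w < 8 * u + 4 * r + 10) :
    TT u r (w + (8 * u + 4 * r + 10) * q) =
      if w ≤ 4 * u + 3 then al w else if w ≤ 4 * u + 4 * r + 6 then be w else al (w + 2) := by
  have h : (w + (8 * u + 4 * r + 10) * q) % (8 * u + 4 * r + 10) = w := by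
    rw [Nat.add_mul_mod_self_left, Nat.mod_eq_of_lt hw]
  unfold TT
  simp only [h]

theorem first_blockS (u r : ℕ) (hu : 1 ≤ u) : 1 ≤ cm (TT u r) (2 * u + 2 * r + 3) 1 := by
  refine block_pos hu ?_ ?_
  · intro z hz
    have h := TT_valS u r 0 (1 + z) (by omega)
    rw [mul_zero, add_zero] at h
    rw [h, if_pos (by omega)]
    push_cast
    rw [add_comm]
  · intro z hz1 hz2
    have h := TT_valS u r 0 (1 + z) (by omega)
    rw [mul_zero, add_zero] at h
    rw [h, if_neg (by omega), if_pos (by omega)]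
    push_cast
    rw [add_comm]

theorem low_partS (u r q z : ℕ) (hz : z < 8 * u + 7) :
    TT u r (4 * u + 4 * r + 7 + (8 * u + 4 * r + 10) * q + z) = al (z + 1) := by
  rcases Nat.lt_or_ge z (4 * u + 3) with h | h
  · have e : 4 * u + 4 * r + 7 + (8 * u + 4 * r + 10) * q + z =
        (4 * u + 4 * r + 7 + z) + (8 * u + 4 * r + 10) * q := by ring
    rw [e, TT_valS u r q _ (by omega), if_neg (by omega), if_neg (by omega)]
    apply al_congr
    push_cast
    omega
  · obtain ⟨w, rfl⟩ := Nat.exists_eq_add_of_le h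
    have e : 4 * u + 4 * r + 7 + (8 * u + 4 * r + 10) * q + (4 * u + 3 + w) =
        w + (8 * u + 4 * r + 10) * (q + 1) := by ring
    rw [e, TT_valS u r (q + 1) _ (by omega), if_pos (by omega)]
    apply al_congr
    push_cast
    omega

theorem high_partS (u r q z : ℕ) (hz1 : 8 * u + 7 ≤ z) (hz : z < 8 * u + 4 * r + 10) :
    TT u r (4 * u + 4 * r + 7 + (8 * u + 4 * r + 10) * q + z) = be (z + 1) := by
  obtain ⟨w, rfl⟩ := Nat.exists_eq_add_of_le (show 4 * u + 3 ≤ z by omega)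
  have e : 4 * u + 4 * r + 7 + (8 * u + 4 * r + 10) * q + (4 * u + 3 + w) =
      w + (8 * u + 4 * r + 10) * (q + 1) := by ring
  rw [e, TT_valS u r (q + 1) _ (by omega), if_neg (by omega), if_pos (by omega)]
  apply be_congr
  push_cast
  omega

theorem one_blockS (u r q : ℕ) :
    cc (-((8 * u : ℕ) : ℤ)) (4 * u + 2 * r) ≤
      cm (TT u r) (4 * u + 2 * r + 5) (4 * u + 4 * r + 7 + (8 * u + 4 * r + 10) * q) := by
  have h := block_le (T := TT u r) (a := 4 * u + 4 * r + 7 + (8 * u + 4 * r + 10) * q)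
    (s := 2 * u + 1) (r := r) (by omega)
    (fun z hz => low_partS u r q z (by omega))
    (fun z hz1 hz2 => high_partS u r q z (by omega) (by omega))
  have e1 : 4 * (2 * u + 1 - 1) = 8 * u := by omega
  have e2 : 2 * (2 * u + 1 - 1) + 2 * r = 4 * u + 2 * r := by omega
  have e3 : 2 * (2 * u + 1) + 2 * r + 3 = 4 * u + 2 * r + 5 := by omega
  rw [e1, e2, e3] at h
  exact h

theorem blocksS (u r k : ℕ) : ∀ q : ℕ,
    cc (-((8 * u : ℕ) : ℤ)) (4 * u + 2 * r) ^ k ≤
      cm (TT u r) (k * (4 * u + 2 * r + 5)) (4 * u + 4 * r + 7 + (8 * u + 4 * r + 10) * q) := by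
  induction k with
  | zero => intro q; rw [pow_zero, zero_mul, cm_zero]
  | succ k ih =>
    intro q
    have h1 := lw_super (TT u r) (k * (4 * u + 2 * r + 5)) (4 * u + 2 * r + 5)
      (4 * u + 4 * r + 7 + (8 * u + 4 * r + 10) * q)
    have e1 : 4 * u + 4 * r + 7 + (8 * u + 4 * r + 10) * q + 2 * (4 * u + 2 * r + 5) =
        4 * u + 4 * r + 7 + (8 * u + 4 * r + 10) * (q + 1) := by ring
    have e2 : 4 * u + 2 * r + 5 + k * (4 * u + 2 * r + 5) = (k + 1) * (4 * u + 2 * r + 5) := by ring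
    rw [e1, e2] at h1
    refine le_trans ?_ h1
    rw [pow_succ, mul_comm]
    exact Nat.mul_le_mul (one_blockS u r q) (ih (q + 1))

theorem tailS (u r q : ℕ) :
    1 ≤ cm (TT u r) (2 * u + 1) (4 * u + 4 * r + 7 + (8 * u + 4 * r + 10) * q) :=
  tail_pos (fun z hz => low_partS u r q z (by omega))

theorem word_lowS (u r k : ℕ) (hu : 1 ≤ u) :
    cc (-((8 * u : ℕ) : ℤ)) (4 * u + 2 * r) ^ k ≤
      cm (TT u r) ((k + 1) * (4 * u + 2 * r + 5)) 0 := by
  -- the inner part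
  have h1 := lw_super (TT u r) (2 * u + 1) (k * (4 * u + 2 * r + 5))
    (4 * u + 4 * r + 7 + (8 * u + 4 * r + 10) * 0)
  have e1 : 4 * u + 4 * r + 7 + (8 * u + 4 * r + 10) * 0 + 2 * (k * (4 * u + 2 * r + 5)) =
      4 * u + 4 * r + 7 + (8 * u + 4 * r + 10) * k := by ring
  rw [e1] at h1
  have h2 : cc (-((8 * u : ℕ) : ℤ)) (4 * u + 2 * r) ^ k ≤
      cm (TT u r) (k * (4 * u + 2 * r + 5) + (2 * u + 1))
        (4 * u + 4 * r + 7 + (8 * u + 4 * r + 10) * 0) := by
    refine le_trans ?_ h1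
    calc cc (-((8 * u : ℕ) : ℤ)) (4 * u + 2 * r) ^ k
        = cc (-((8 * u : ℕ) : ℤ)) (4 * u + 2 * r) ^ k * 1 := (mul_one _).symm
      _ ≤ _ := Nat.mul_le_mul (blocksS u r k 0) (tailS u r k)
  have h3 := lw_super (TT u r) (k * (4 * u + 2 * r + 5) + (2 * u + 1)) (2 * u + 2 * r + 3) 1
  have e3 : 1 + 2 * (2 * u + 2 * r + 3) = 4 * u + 4 * r + 7 + (8 * u + 4 * r + 10) * 0 := by ring
  rw [e3] at h3
  have h4 : cc (-((8 * u : ℕ) : ℤ)) (4 * u + 2 * r) ^ k ≤
      cm (TT u r) (2 * u + 2 * r + 3 + (k * (4 * u + 2 * r + 5) + (2 * u + 1))) 1 := by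
    refine le_trans ?_ h3
    calc cc (-((8 * u : ℕ) : ℤ)) (4 * u + 2 * r) ^ k
        = 1 * cc (-((8 * u : ℕ) : ℤ)) (4 * u + 2 * r) ^ k := (one_mul _).symm
      _ ≤ _ := Nat.mul_le_mul (first_blockS u r hu) h2
  have h5 : TT u r (0 + 2 * (2 * u + 2 * r + 3 + (k * (4 * u + 2 * r + 5) + (2 * u + 1))) + 1) =
      TT u r 0 + 1 := by
    have e5 : 0 + 2 * (2 * u + 2 * r + 3 + (k * (4 * u + 2 * r + 5) + (2 * u + 1))) + 1 =
        (8 * u + 4 * r + 9) + (8 * u + 4 * r + 10) * k := by ring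
    have e6 := TT_valS u r 0 0 (by omega)
    rw [mul_zero, add_zero, if_pos (by omega)] at e6
    have f0 : al ((0 : ℕ) : ℤ) = 0 := by
      unfold al
      rw [if_pos (by norm_num)]
    have f1 : al (((8 * u + 4 * r + 9 : ℕ) : ℤ) + 2) = 1 := by
      unfold al
      rw [if_neg (by omega), if_neg (by omega)]
    rw [e5, TT_valS u r k _ (by omega), if_neg (by omega), if_neg (by omega), e6, f0, f1]
    norm_num
  have h6 := cm_wrap (TT u r) _ 0 h5
  rw [zero_add] at h6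
  have e7 : 2 * u + 2 * r + 3 + (k * (4 * u + 2 * r + 5) + (2 * u + 1)) + 1 =
      (k + 1) * (4 * u + 2 * r + 5) := by ring
  rw [e7] at h6
  exact le_trans h4 h6

end Pool.Agent.TP73
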