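import Pool.Agent.TP73.Defs

set_option autoImplicit false

/-!
# TP73/WordS89: the symmetric periodic path (helper89)
-/

namespace Pool.Agent.TP73

open Pool.Agent.MV68

theorem TT_per_S89 (u r z : ℕ) : TT u r (z + (8 * u + 4 * r + 10)) = TT u r z := by
  unfold TT
  simp only [Nat.add_mod_right]

theorem TT_sym_S89 (u r z : ℕ) (hz : z ≤ 8 * u + 4 * r + 10) :
    TT u r (8 * u + 4 * r + 10 - z) = TT u r z := by
  have h0 : TT u r (8 * u + 4 * r + 10) = TT u r 0 := by
    have := TT_per_S89 u r 0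
    rwa [Nat.zero_add] at this
  rcases Nat.eq_zero_or_pos z with rfl | hz0
  · rw [Nat.sub_zero]
    exact h0
  rcases Nat.lt_or_ge z (8 * u + 4 * r + 10) with hz1 | hz1
  · unfold TT al be
    simp only
    rw [Nat.mod_eq_of_lt (show 8 * u + 4 * r + 10 - z < 8 * u + 4 * r + 10 by omega),
      Nat.mod_eq_of_lt hz1]
    split_ifs <;> omega
  · have : z = 8 * u + 4 * r + 10 := by omega
    rw [this, Nat.sub_self]
    exact h0.symm

theorem TT_step_S89 (u r z : ℕ) : TT u r (z + 1) = TT u r z + 1 ∨ TT u r (z + 1) = TT u r z - 1 := by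
  have hP : 0 < 8 * u + 4 * r + 10 := by omega
  have hw := Nat.mod_lt z hP
  have h1 : (z + 1) % (8 * u + 4 * r + 10) =
      if z % (8 * u + 4 * r + 10) + 1 = 8 * u + 4 * r + 10 then 0
      else z % (8 * u + 4 * r + 10) + 1 := by
    rw [Nat.add_mod, Nat.mod_eq_of_lt (show 1 < 8 * u + 4 * r + 10 by omega)]
    split_ifs with h
    · rw [h, Nat.mod_self]
    · exact Nat.mod_eq_of_lt (by omega)
  unfold TT al be
  simp only
  rw [h1]
  generalize z % (8 * u + 4 * r + 10) = w at hw ⊢
  split_ifs <;> omega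

end Pool.Agent.TP73
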