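import Pool.Agent.TP73.Block
import Pool.Agent.TP73.WordLowS
import Pool.Agent.TP73.WordS89

/-!
# The symmetric periodic path

`p = 8 u + 4 r + 10`, `T = TT u r`: lower plateau `w ≤ 4 u + 3` and `w ≥ 4 u + 4 r + 7` (mod `p`), upper plateau
in between. `s = 2 u + 1`: the plateau has `4 s + 3 = 8 u + 7` positions.

`word_low` (`u ≥ 1`, `k ≥ 1`): the positions `0, ..., k p - 1`. The chord `(0, k p - 1)` (heights 0, 1); inside, from
`1` on: a block as in `block_pos` with `s := u` (`4 u + 4 r + 6` positions); then `k - 1` blocks of `p` positions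
as in `block_le` with `s := 2 u + 1`, starting at `4 u + 4 r + 7 + p l`; then the `4 u + 2` positions of
`tail_pos`. Use `lw_super`.
-/

set_option autoImplicit false

namespace Pool.Agent.TP73

open Pool.Agent.MV68

theorem TT_per (u r z : ℕ) : TT u r (z + (8 * u + 4 * r + 10)) = TT u r z := by
  exact TT_per_S89 u r z

theorem TT_sym (u r z : ℕ) (hz : z ≤ 8 * u + 4 * r + 10) :
    TT u r (8 * u + 4 * r + 10 - z) = TT u r z := by
  exact TT_sym_S89 u r z hz

theorem TT_step (u r z : ℕ) : TT u r (z + 1) = TT u r z + 1 ∨ TT u r (z + 1) = TT u r z - 1 := by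
  exact TT_step_S89 u r z

theorem word_low (u r k : ℕ) (hu : 1 ≤ u) :
    cc (-((8 * u : ℕ) : ℤ)) (4 * u + 2 * r) ^ k ≤
      cm (TT u r) ((k + 1) * (4 * u + 2 * r + 5)) 0 := by
  exact word_lowS u r k hu

end Pool.Agent.TP73
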