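import Pool.Agent.TP73.Top
import Pool.Agent.TP73.Big
import Pool.Agent.TP73.Word

/-!
# `M(n) ≥ x ^ n` for every `x < 3 / √2` and all large `n`

`exists_word`: `big8` for `x1` between `x` and `3 / √2` with `K` large, then `word_low` with `k` large:
`(x1 ^ M) ^ k ≥ x ^ ((k + 1) (M + 5))`, `M = 4 u + 2 r`.
`main`: `word_bound` with `m` of `exists_word` for `x2` between `max x 1` and `3 / √2`:
`M(n) ≥ x2 ^ (2 m (n / (2 m))) ≥ x2 ^ (n - 2 m) ≥ x ^ n` for large `n`.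
-/

set_option autoImplicit false

namespace Pool.Agent.TP73

open Pool.Agent.MV68 Pool.Agent.Results.MP_15ecc6_co.DoubleCatalan

theorem exists_word (x : ℝ) (hx1 : 1 < x) (hx : x < 3 / √2) :
    ∃ u r k : ℕ, x ^ ((k + 1) * (4 * u + 2 * r + 5)) ≤
      (cm (TT u r) ((k + 1) * (4 * u + 2 * r + 5)) 0 : ℝ) := by
  obtain ⟨x1, h1, h2⟩ := exists_between hx
  have hx0 : 0 < x := by linarith
  have hq : 1 < x1 / x := by
    rw [one_lt_div hx0]
    exact h1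
  obtain ⟨K, hK⟩ := pow_unbounded_of_one_lt (x ^ 6) hq
  obtain ⟨u, r, hu, hKu, hc⟩ := big8 GG_top x1 (by linarith) h2 K
  refine ⟨u, r, 4 * u + 2 * r + 5, ?_⟩
  have hw := word_low u r (4 * u + 2 * r + 5) hu
  have hKM : K ≤ 4 * u + 2 * r := by omega
  generalize 4 * u + 2 * r = M at hc hw hKM ⊢
  have h3 : x ^ 6 ≤ (x1 / x) ^ M := hK.le.trans (pow_le_pow_right₀ hq.le hKM)
  rw [div_pow, le_div_iff₀ (by positivity), ← pow_add] at h3
  have h4 : (0 : ℝ) ≤ x1 ^ M := pow_nonneg (by linarith) _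
  calc x ^ ((M + 5 + 1) * (M + 5)) = (x ^ (6 + M)) ^ (M + 5) := by
        rw [← pow_mul]
        congr 1
        ring
    _ ≤ (x1 ^ M) ^ (M + 5) := pow_le_pow_left₀ (by positivity) h3 _
    _ ≤ (cc (-((8 * u : ℕ) : ℤ)) M : ℝ) ^ (M + 5) := pow_le_pow_left₀ h4 hc _
    _ ≤ (cm (TT u r) ((M + 5 + 1) * (M + 5)) 0 : ℝ) := by exact_mod_cast hw

theorem main (x : ℝ) (hx0 : 0 ≤ x) (hx : x < 3 / √2) :
    ∃ n₀ : ℕ, ∀ n ≥ n₀, x ^ n ≤ (maxStates n : ℝ) := by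
  have hs2 : √(2 : ℝ) < 3 := by
    rw [show (3 : ℝ) = √(3 ^ 2) by rw [Real.sqrt_sq (by norm_num)]]
    exact Real.sqrt_lt_sqrt (by norm_num) (by norm_num)
  have h3 : (1 : ℝ) < 3 / √2 := by
    rw [one_lt_div (by positivity)]
    exact hs2
  obtain ⟨x2, h1, h2⟩ := exists_between (max_lt hx h3)
  set y : ℝ := max x 1 with hy
  have hy1 : 1 ≤ y := le_max_right _ _
  have hxy : x ≤ y := le_max_left _ _
  have hx2 : 1 < x2 := lt_of_le_of_lt hy1 h1
  obtain ⟨u, r, k, hw⟩ := exists_word x2 hx2 h2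
  set m : ℕ := (k + 1) * (4 * u + 2 * r + 5) with hm
  have hm0 : 0 < m := Nat.mul_pos (Nat.succ_pos k) (by omega)
  have hmp : (2 * m) % (8 * u + 4 * r + 10) = 0 := by
    have e : 2 * m = (8 * u + 4 * r + 10) * (k + 1) := by
      rw [hm]
      ring
    rw [e, Nat.mul_mod_right]
  have hq : 1 < x2 / y := by
    rw [one_lt_div (by linarith)]
    exact h1
  obtain ⟨n0, hn0⟩ := pow_unbounded_of_one_lt (x2 ^ (2 * m)) hq
  refine ⟨n0, fun n hn => ?_⟩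
  have hb := word_bound (T := TT u r) (p := 8 * u + 4 * r + 10) (by omega) (TT_per u r)
    (TT_sym u r) (TT_step u r) hm0 hmp n
  have h4 : x2 ^ (2 * m) ≤ (x2 / y) ^ n := hn0.le.trans (pow_le_pow_right₀ hq.le hn)
  have hy0 : 0 < y := by linarith
  rw [div_pow, le_div_iff₀ (pow_pos hy0 n)] at h4
  have h5 : n ≤ m * (2 * (n / (2 * m))) + 2 * m := by
    have h6 := Nat.div_add_mod n (2 * m)
    have h7 := Nat.mod_lt n (show 0 < 2 * m by omega)
    have h8 : m * (2 * (n / (2 * m))) = 2 * m * (n / (2 * m)) := by ring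
    omega
  have h9 : x2 ^ n ≤ x2 ^ (m * (2 * (n / (2 * m)))) * x2 ^ (2 * m) := by
    rw [← pow_add]
    exact pow_le_pow_right₀ hx2.le h5
  have hp0 : 0 < x2 ^ (2 * m) := pow_pos (by linarith) _
  have h10 : y ^ n ≤ x2 ^ (m * (2 * (n / (2 * m)))) := by
    have h11 : x2 ^ (2 * m) * y ^ n ≤ x2 ^ (2 * m) * x2 ^ (m * (2 * (n / (2 * m)))) := by
      rw [mul_comm (x2 ^ (2 * m)) (x2 ^ (m * (2 * (n / (2 * m)))))]
      exact h4.trans h9
    exact le_of_mul_le_mul_left h11 hp0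
  calc x ^ n ≤ y ^ n := pow_le_pow_left₀ hx0 hxy n
    _ ≤ x2 ^ (m * (2 * (n / (2 * m)))) := h10
    _ = (x2 ^ m) ^ (2 * (n / (2 * m))) := pow_mul _ _ _
    _ ≤ (cm (TT u r) m 0 : ℝ) ^ (2 * (n / (2 * m))) :=
        pow_le_pow_left₀ (pow_nonneg (by linarith) _) hw _
    _ ≤ (maxStates n : ℝ) := by exact_mod_cast hb

end Pool.Agent.TP73
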