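import Pool.Agent.TP73.Defs

/-!
# The recursion of `cc`, and the local counts

`cc_succ`: `lw_cm_succ` and `lw_congr` (the count from position `a` on of a height function is the count
from `0` on of the shifted height function).
`cc_right`: `hh (x + z) = be (x + z) = be (c + z)`. `cc_left` (not needed if the term is handled
directly): positions `x, ..., x + 2 k - 1 < 0`.
-/

set_option autoImplicit false

namespace Pool.Agent.TP73

open Pool.Agent.MV68

theorem cc_zero (x : ℤ) : cc x 0 = 1 := by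
  unfold cc
  rw [cm_zero]

theorem cc_succ (x : ℤ) (k : ℕ) : cc x (k + 1) = ∑ i ∈ Finset.range (k + 1),
    if hh (x + 2 * i + 1) = hh x + 1 then cc (x + 1) i * cc (x + 2 * i + 2) (k - i) else 0 := by
  unfold cc
  rw [lw_cm_succ]
  refine Finset.sum_congr rfl fun i _ => ?_
  have e1 : cm (fun z : ℕ => hh (x + z)) i (0 + 1) = cm (fun z : ℕ => hh (x + 1 + z)) i 0 := by
    apply lw_congr
    intro j _
    have a1 : x + ((0 + 1 + j : ℕ) : ℤ) = x + 1 + ((0 + j : ℕ) : ℤ) := by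
      push_cast
      ring
    have a2 : x + ((0 + 1 : ℕ) : ℤ) = x + 1 + ((0 : ℕ) : ℤ) := by
      push_cast
      ring
    show hh (x + ((0 + 1 + j : ℕ) : ℤ)) - hh (x + ((0 + 1 : ℕ) : ℤ)) =
      hh (x + 1 + ((0 + j : ℕ) : ℤ)) - hh (x + 1 + ((0 : ℕ) : ℤ))
    rw [a1, a2]
  have e2 : cm (fun z : ℕ => hh (x + z)) (k - i) (0 + 2 * i + 2) =
      cm (fun z : ℕ => hh (x + 2 * i + 2 + z)) (k - i) 0 := by
    apply lw_congr
    intro j _
    have a1 : x + ((0 + 2 * i + 2 + j : ℕ) : ℤ) = x + 2 * i + 2 + ((0 + j : ℕ) : ℤ) := by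
      push_cast
      ring
    have a2 : x + ((0 + 2 * i + 2 : ℕ) : ℤ) = x + 2 * i + 2 + ((0 : ℕ) : ℤ) := by
      push_cast
      ring
    show hh (x + ((0 + 2 * i + 2 + j : ℕ) : ℤ)) - hh (x + ((0 + 2 * i + 2 : ℕ) : ℤ)) =
      hh (x + 2 * i + 2 + ((0 + j : ℕ) : ℤ)) - hh (x + 2 * i + 2 + ((0 : ℕ) : ℤ))
    rw [a1, a2]
  have e3 : hh (x + ((0 + 2 * i + 1 : ℕ) : ℤ)) = hh (x + 2 * i + 1) := by
    congr 1
    push_cast
    ring
  have e4 : hh (x + ((0 : ℕ) : ℤ)) = hh x := by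
    congr 1
    push_cast
    ring
  rw [e1, e2, e3, e4]

/-- right of the junction the count is the local count of the upper zigzag -/
theorem cc_right {x : ℤ} (hx : 0 ≤ x) (c : ℕ) (hc : x % 4 = (c : ℤ) % 4) (k : ℕ) :
    cc x k = cm (fun z : ℕ => be z) k c := by
  unfold cc
  apply lw_congr
  intro i _
  show hh (x + ((0 + i : ℕ) : ℤ)) - hh (x + ((0 : ℕ) : ℤ)) = be ((c + i : ℕ) : ℤ) - be (c : ℤ)
  have h1 : ¬ x + ((0 + i : ℕ) : ℤ) < 0 := by push_cast; omega
  have h2 : ¬ x + ((0 : ℕ) : ℤ) < 0 := by push_cast; omega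
  have h3 : be (x + ((0 + i : ℕ) : ℤ)) = be ((c + i : ℕ) : ℤ) := by
    apply be_congr
    push_cast
    omega
  have h4 : be (x + ((0 : ℕ) : ℤ)) = be (c : ℤ) := by
    apply be_congr
    push_cast
    omega
  unfold hh
  rw [if_neg h1, if_neg h2, h3, h4]

/-- left of the junction the count is the local count of the lower zigzag -/
theorem cc_left {x : ℤ} {k : ℕ} (hx : x + 2 * k ≤ 0) (c : ℕ) (hc : x % 4 = (c : ℤ) % 4) :
    cc x k = cm (fun z : ℕ => al z) k c := by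
  unfold cc
  apply lw_congr
  intro i hi
  show hh (x + ((0 + i : ℕ) : ℤ)) - hh (x + ((0 : ℕ) : ℤ)) = al ((c + i : ℕ) : ℤ) - al (c : ℤ)
  have h1 : x + ((0 + i : ℕ) : ℤ) < 0 := by push_cast; omega
  have h2 : x + ((0 : ℕ) : ℤ) < 0 := by push_cast; omega
  have h3 : al (x + ((0 + i : ℕ) : ℤ)) = al ((c + i : ℕ) : ℤ) := by
    apply al_congr
    push_cast
    omega
  have h4 : al (x + ((0 : ℕ) : ℤ)) = al (c : ℤ) := by
    apply al_congr
    push_cast
    omega
  unfold hh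
  rw [if_pos h1, if_pos h2, h3, h4]

end Pool.Agent.TP73
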