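import Pool.Agent.TP73.Split

/-!
# First chord across the junction

Expand `GG y (a + 1) c * WB y (c + 1) b` as a triple series over `i, k` (the indices of `GG`) and `l` (the
index of `Wg`). The terms with `i ≤ 2 k`, `2 k ≡ c + i`: the position `2 k - i ≥ 0` is `≡ c`, so
`hh (2 k - i) = be c`, and `cc (2 k - i + 1) l = cm be l (c + 1)` (`cc_right`). For given `i, k` only one
`c ∈ {0, 1, 2, 3}` has a nonzero term.
-/

set_option autoImplicit false

namespace Pool.Agent.TP73

open Pool.Agent.MV68

set_option linter.unusedVariables false in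
theorem right_le (y : ENNReal) (a b : ℕ) (hb : b < 4) :
    y * (∑ c ∈ Finset.range 4, if be c = al a + 1 then GG y (a + 1) c * WB y (c + 1) b else 0) ≤
      ∑' i, ∑' k, ∑' l, if i ≤ 2 * k then FF y a b i k l else 0 := by
  have h1 : ∀ c : ℕ, (if be c = al a + 1 then GG y (a + 1) c * WB y (c + 1) b else 0) =
      ∑' i : ℕ, ∑' k : ℕ, ∑' l : ℕ, (if be c = al a + 1 then
        (if i ≤ 2 * k ∧ (a + 1 + i) % 4 = 0 ∧ (2 * k) % 4 = (c + i) % 4 then
          (cc (-(i : ℤ)) k : ENNReal) * y ^ k else 0) *
        (if (c + 1 + 2 * l) % 4 = b then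
          (cm (fun z : ℕ => be z) l (c + 1) : ENNReal) * y ^ l else 0) else 0) := by
    intro c
    by_cases h : be c = al a + 1
    · simp only [if_pos h]
      unfold GG WB Wg
      rw [← ENNReal.tsum_mul_right]
      refine tsum_congr fun i => ?_
      rw [← ENNReal.tsum_mul_right]
      refine tsum_congr fun k => ?_
      rw [ENNReal.tsum_mul_left]
    · simp only [if_neg h, tsum_zero]
  rw [Finset.sum_congr rfl (fun c _ => h1 c),
    ← Summable.tsum_finsetSum (fun _ _ => ENNReal.summable), ← ENNReal.tsum_mul_left]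
  refine ENNReal.tsum_le_tsum fun i => ?_
  rw [← Summable.tsum_finsetSum (fun _ _ => ENNReal.summable), ← ENNReal.tsum_mul_left]
  refine ENNReal.tsum_le_tsum fun k => ?_
  rw [← Summable.tsum_finsetSum (fun _ _ => ENNReal.summable), ← ENNReal.tsum_mul_left]
  refine ENNReal.tsum_le_tsum fun l => ?_
  by_cases hik : i ≤ 2 * k
  · rw [if_pos hik]
    obtain ⟨c0, hc0⟩ : ∃ c0, c0 = (2 * k - i) % 4 := ⟨_, rfl⟩
    have hc04 : c0 < 4 := by omega
    rw [Finset.sum_eq_single_of_mem c0 (Finset.mem_range.2 hc04)]
    · by_cases h : be c0 = al a + 1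
      · rw [if_pos h]
        by_cases h2 : (a + 1 + i) % 4 = 0
        · rw [if_pos ⟨hik, h2, by omega⟩]
          by_cases h3 : (c0 + 1 + 2 * l) % 4 = b
          · rw [if_pos h3]
            have h4 : hh (2 * (k : ℤ) - i) = al a + 1 := by
              rw [← h]
              unfold hh
              rw [if_neg (by omega)]
              exact be_congr (by omega)
            have h5 : cc (2 * (k : ℤ) - i + 1) l = cm (fun z : ℕ => be z) l (c0 + 1) :=
              cc_right (by omega) (c0 + 1) (by push_cast; omega) l
            unfold FF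
            rw [if_pos ⟨⟨by omega, by omega, by omega⟩, h4⟩, h5]
            refine le_of_eq ?_
            ring
          · rw [if_neg h3, mul_zero, mul_zero]
            exact zero_le
        · rw [if_neg (fun h3 => h2 h3.2.1), zero_mul, mul_zero]
          exact zero_le
      · rw [if_neg h, mul_zero]
        exact zero_le
    · intro c hc hne
      rw [Finset.mem_range] at hc
      rw [if_neg (c := i ≤ 2 * k ∧ _) (fun h3 => hne (by omega)), zero_mul, ite_self]
  · rw [if_neg hik]
    refine le_of_eq ?_
    rw [Finset.sum_eq_zero, mul_zero]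
    intro c _
    rw [if_neg (c := i ≤ 2 * k ∧ _) (fun h3 => hik h3.1), zero_mul, ite_self]

end Pool.Agent.TP73
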