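import Pool.Agent.TP73.Split

/-!
# First chord across the junction
-/

set_option autoImplicit false

namespace Pool.Agent.TP73

open Pool.Agent.MV68

/-- the terms of the product -/
noncomputable def rt1 (y : ENNReal) (a b c i k l : ℕ) : ENNReal :=
  if (be c = al a + 1 ∧ (i ≤ 2 * k ∧ (a + 1 + i) % 4 = 0 ∧ (2 * k) % 4 = (c + i) % 4)) ∧
      (c + 1 + 2 * l) % 4 = b then
    y * ((cc (-(i : ℤ)) k : ENNReal) * y ^ k * ((cm (fun z : ℕ => be z) l (c + 1) : ENNReal) * y ^ l))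
  else 0

theorem right_expand (y : ENNReal) (a b c : ℕ) :
    y * (if be c = al a + 1 then GG y (a + 1) c * WB y (c + 1) b else 0) =
      ∑' i, ∑' k, ∑' l, rt1 y a b c i k l := by
  by_cases h : be c = al a + 1
  · rw [if_pos h]
    unfold WB Wg GG
    rw [← ENNReal.tsum_mul_right, ← ENNReal.tsum_mul_left]
    refine tsum_congr fun i => ?_
    rw [← ENNReal.tsum_mul_right, ← ENNReal.tsum_mul_left]
    refine tsum_congr fun k => ?_
    rw [← ENNReal.tsum_mul_left, ← ENNReal.tsum_mul_left]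
    refine tsum_congr fun l => ?_
    unfold rt1
    by_cases h1 : (c + 1 + 2 * l) % 4 = b
    · rw [if_pos h1]
      by_cases h2 : i ≤ 2 * k ∧ (a + 1 + i) % 4 = 0 ∧ (2 * k) % 4 = (c + i) % 4
      · rw [if_pos h2, if_pos ⟨⟨h, h2⟩, h1⟩]
      · rw [if_neg h2, if_neg (fun h' => h2 h'.1.2), zero_mul, mul_zero]
    · rw [if_neg h1, mul_zero, mul_zero, if_neg (fun h' => h1 h'.2)]
  · rw [if_neg h, mul_zero]
    symm
    rw [ENNReal.tsum_eq_zero]
    intro k
    rw [ENNReal.tsum_eq_zero]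
    intro i
    rw [ENNReal.tsum_eq_zero]
    intro l
    unfold rt1
    rw [if_neg (fun h' => h h'.1.1)]

theorem right_term (y : ENNReal) (a b c i k l : ℕ)
    (h : (be c = al a + 1 ∧ (i ≤ 2 * k ∧ (a + 1 + i) % 4 = 0 ∧ (2 * k) % 4 = (c + i) % 4)) ∧
      (c + 1 + 2 * l) % 4 = b) :
    rt1 y a b c i k l = FF y a b i k l := by
  obtain ⟨⟨h1, h2, h3, h4⟩, h5⟩ := h
  have e3 : hh (2 * (k : ℤ) - (i : ℤ)) = al a + 1 := by
    unfold hh
    rw [if_neg (by omega), ← h1]
    exact be_congr (by omega)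
  have e4 : cc (2 * (k : ℤ) - (i : ℤ) + 1) l = cm (fun z : ℕ => be z) l (c + 1) := by
    refine cc_right ?_ (c + 1) ?_ l
    · omega
    · push_cast
      omega
  unfold rt1 FF
  rw [if_pos ⟨⟨h1, h2, h3, h4⟩, h5⟩, if_pos ⟨⟨by omega, by omega, by omega⟩, e3⟩, e4]
  rw [pow_succ, pow_add]
  ring

theorem right_sum (y : ENNReal) (a b i k l : ℕ) :
    ∑ c ∈ Finset.range 4, rt1 y a b c i k l ≤ (if i ≤ 2 * k then FF y a b i k l else 0) := by
  by_cases hik : i ≤ 2 * k
  · rw [if_pos hik, Finset.sum_eq_single ((2 * k + 3 * i) % 4)]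
    · by_cases h : (be (((2 * k + 3 * i) % 4 : ℕ) : ℤ) = al a + 1 ∧ (i ≤ 2 * k ∧ (a + 1 + i) % 4 = 0 ∧
          (2 * k) % 4 = ((2 * k + 3 * i) % 4 + i) % 4)) ∧ ((2 * k + 3 * i) % 4 + 1 + 2 * l) % 4 = b
      · rw [right_term y a b _ i k l h]
      · unfold rt1
        rw [if_neg h]
        exact zero_le
    · intro g hg hne
      unfold rt1
      rw [if_neg]
      rintro ⟨⟨_, _, _, h⟩, _⟩
      apply hne
      rw [Finset.mem_range] at hg
      omega
    · intro h
      exfalso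
      apply h
      rw [Finset.mem_range]
      exact Nat.mod_lt _ (by norm_num)
  · rw [if_neg hik]
    refine le_of_eq (Finset.sum_eq_zero fun c _ => ?_)
    unfold rt1
    rw [if_neg]
    rintro ⟨⟨_, h, _, _⟩, _⟩
    exact hik h

theorem right_le_S (y : ENNReal) (a b : ℕ) :
    y * (∑ c ∈ Finset.range 4, if be c = al a + 1 then GG y (a + 1) c * WB y (c + 1) b else 0) ≤
      ∑' i, ∑' k, ∑' l, if i ≤ 2 * k then FF y a b i k l else 0 := by
  rw [Finset.mul_sum]
  simp only [right_expand]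
  have h1 : ∑ g ∈ Finset.range 4, ∑' i, ∑' k, ∑' l, rt1 y a b g i k l =
      ∑' i, ∑' k, ∑' l, ∑ g ∈ Finset.range 4, rt1 y a b g i k l := by
    rw [← Summable.tsum_finsetSum (fun _ _ => ENNReal.summable)]
    refine tsum_congr fun k => ?_
    rw [← Summable.tsum_finsetSum (fun _ _ => ENNReal.summable)]
    refine tsum_congr fun i => ?_
    rw [← Summable.tsum_finsetSum (fun _ _ => ENNReal.summable)]
  rw [h1]
  refine ENNReal.tsum_le_tsum fun i => ENNReal.tsum_le_tsum fun k => ENNReal.tsum_le_tsum fun l => ?_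
  exact right_sum y a b i k l

end Pool.Agent.TP73
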