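import Pool.Agent.TP73.SplitS

/-!
# The first chord, as a triple series

`FF y a b i k l` = the term of the interval `[-(i+1), ...)` of `2 (k + l + 1)` positions in which the first
position `-(i+1)` is matched with `2 k - i`.

`GG_split`: in `GG y a b` the term `i = 0, m = 0` gives `src`; for `i + 1` and `m + 1` use `cc_succ`; the sum
over `m` of the sums over `k ≤ m` is the double sum over `k` and `l = m - k` (`MV68.tsum_anti`).
-/

set_option autoImplicit false

namespace Pool.Agent.TP73

open Pool.Agent.MV68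

/-- the term of the first chord -/
noncomputable def FF (y : ENNReal) (a b i k l : ℕ) : ENNReal :=
  if (i + 1 ≤ 2 * (k + l + 1) ∧ (a + (i + 1)) % 4 = 0 ∧ (2 * (k + l + 1)) % 4 = (b + (i + 1)) % 4) ∧
      hh (2 * (k : ℤ) - i) = al a + 1 then
    (cc (-(i : ℤ)) k : ENNReal) * (cc (2 * (k : ℤ) - i + 1) l : ENNReal) * y ^ (k + l + 1) else 0

theorem GG_split (y : ENNReal) (a b : ℕ) :
    (if a % 4 = 0 ∧ b % 4 = 0 then 1 else 0) + ∑' i, ∑' k, ∑' l, FF y a b i k l ≤ GG y a b :=
  GG_split_S y a b

end Pool.Agent.TP73
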