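import Pool.Agent.TP73.Rec

/-!
# The first chord, as a triple series
-/

set_option autoImplicit false

namespace Pool.Agent.TP73

open Pool.Agent.MV68

/-- one term of `GG` -/
noncomputable def gt1 (y : ENNReal) (a b i m : ℕ) : ENNReal :=
  if i ≤ 2 * m ∧ (a + i) % 4 = 0 ∧ (2 * m) % 4 = (b + i) % 4 then
    (cc (-(i : ℤ)) m : ENNReal) * y ^ m else 0

/-- the term of the first chord -/
noncomputable def ff1 (y : ENNReal) (a b i k l : ℕ) : ENNReal :=
  if (i + 1 ≤ 2 * (k + l + 1) ∧ (a + (i + 1)) % 4 = 0 ∧ (2 * (k + l + 1)) % 4 = (b + (i + 1)) % 4) ∧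
      hh (2 * (k : ℤ) - i) = al a + 1 then
    (cc (-(i : ℤ)) k : ENNReal) * (cc (2 * (k : ℤ) - i + 1) l : ENNReal) * y ^ (k + l + 1) else 0

theorem gt1_succ (y : ENNReal) (a b i m : ℕ) :
    gt1 y a b (i + 1) (m + 1) = ∑ k : Fin (m + 1), ff1 y a b i k (m - k) := by
  unfold gt1
  by_cases h : i + 1 ≤ 2 * (m + 1) ∧ (a + (i + 1)) % 4 = 0 ∧ (2 * (m + 1)) % 4 = (b + (i + 1)) % 4
  · rw [if_pos h, cc_succ, Finset.sum_range, Nat.cast_sum, Finset.sum_mul]
    refine Finset.sum_congr rfl fun k _ => ?_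
    have hk := k.isLt
    have e0 : (k : ℕ) + (m - (k : ℕ)) + 1 = m + 1 := by omega
    have e1 : hh (-((i + 1 : ℕ) : ℤ)) = al a := by
      unfold hh
      rw [if_pos (by omega)]
      exact al_congr (by omega)
    have e2 : (-((i + 1 : ℕ) : ℤ) + 2 * ((k : ℕ) : ℤ) + 1) = 2 * ((k : ℕ) : ℤ) - (i : ℤ) := by
      push_cast
      ring
    have e3 : (-((i + 1 : ℕ) : ℤ) + 2 * ((k : ℕ) : ℤ) + 2) = 2 * ((k : ℕ) : ℤ) - (i : ℤ) + 1 := by
      push_cast
      ring
    have e4 : (-((i + 1 : ℕ) : ℤ) + 1) = -(i : ℤ) := by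
      push_cast
      ring
    rw [e1, e2, e3, e4]
    unfold ff1
    rw [e0]
    by_cases h2 : hh (2 * ((k : ℕ) : ℤ) - (i : ℤ)) = al a + 1
    · rw [if_pos h2, if_pos ⟨h, h2⟩, Nat.cast_mul]
    · rw [if_neg h2, if_neg (fun h' => h2 h'.2), Nat.cast_zero, zero_mul]
  · rw [if_neg h]
    symm
    refine Finset.sum_eq_zero fun k _ => ?_
    have hk := k.isLt
    have e0 : (k : ℕ) + (m - (k : ℕ)) + 1 = m + 1 := by omega
    unfold ff1
    rw [e0, if_neg (fun h' => h h'.1)]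

theorem GG_split_S (y : ENNReal) (a b : ℕ) :
    (if a % 4 = 0 ∧ b % 4 = 0 then 1 else 0) + ∑' i, ∑' k, ∑' l, ff1 y a b i k l ≤ GG y a b := by
  have h0 : GG y a b = ∑' m, gt1 y a b 0 m + ∑' i, ∑' m, gt1 y a b (i + 1) m := by
    have h1 : GG y a b = ∑' i, ∑' m, gt1 y a b i m := rfl
    rw [h1]
    exact tsum_eq_zero_add' ENNReal.summable
  rw [h0]
  refine add_le_add ?_ ?_
  · refine le_trans ?_ (ENNReal.le_tsum 0)
    unfold gt1
    by_cases h : a % 4 = 0 ∧ b % 4 = 0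
    · rw [if_pos h, if_pos ⟨by omega, by omega, by omega⟩, cc_zero]
      simp
    · rw [if_neg h]
      exact zero_le
  · refine ENNReal.tsum_le_tsum fun i => ?_
    rw [tsum_anti (fun k l => ff1 y a b i k l)]
    refine le_trans (le_of_eq (tsum_congr fun m => (gt1_succ y a b i m).symm)) ?_
    exact ENNReal.tsum_comp_le_tsum_of_injective (f := fun m : ℕ => m + 1)
      (fun m n h => by simpa using h) (fun m => gt1 y a b (i + 1) m)

end Pool.Agent.TP73
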