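import Pool.Agent.TP73.TopS

/-!
# The series diverges at the critical value

`GG_rec`: `GG_split` with `right_le` and `left_le` (every term of `FF` belongs to exactly one of the two sums).

`GG_top`. With `u = √2 / 2`, `y = √2 / 3` and `zig_low` for `al` (`p0 = 0`) and for `be` (`p0 = 1`):
`G11 ≥ y (3/2 G20 + G31)`, `G00 ≥ 1 + y (u G11 + G20 + u G00)`, `G20 ≥ y 3/2 G33`,
`G31 ≥ y (3/2 G00 + u G31)`, `G33 ≥ y (u G00 + G02 + u G33)`, `G02 ≥ y (G11 + u G02)`.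
(`G11`: targets `c = 0`, `g = 2`; `G00`: `c = 1`, `g = 1, 3`; `G20`: `c = 3`; `G31`: `c = 0`, `g = 2`;
`G33`: `c = 0, 2`, `g = 2`; `G02`: `c = 1`, `g = 3`. `GG y 4 b = GG y 0 b`: `GG_add`; `Wg_mod` for index 4.)
If `G00 < ⊤`, then all six are finite. With the real numbers `g11, g00, g33` and `√2 g20, √2 g31, √2 g02` all
coefficients are rational: `g11 ≥ G20/2 + G31/3`, `g00 ≥ 1 + g11/3 + G20/3 + g00/3`, `G20 ≥ g33`,
`G31 ≥ g00 + G31/3`, `g33 ≥ G02/3 + g00/3 + g33/3`, `G02 ≥ 2/3 g11 + G02/3`; `linarith`.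
-/

set_option autoImplicit false

namespace Pool.Agent.TP73

open Pool.Agent.MV68

theorem GG_rec (y : ENNReal) (a b : ℕ) (hb : b < 4) :
    (if a % 4 = 0 ∧ b % 4 = 0 then 1 else 0) +
      y * (∑ c ∈ Finset.range 4, if be c = al a + 1 then GG y (a + 1) c * WB y (c + 1) b else 0) +
      y * (∑ g ∈ Finset.range 4, if al g = al a + 1 then WA y (a + 1) g * GG y (g + 1) b else 0) ≤
    GG y a b :=
  GG_rec_S y a b hb

theorem GG_top : GG yc 0 0 = ⊤ :=
  TopS.GG_top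

end Pool.Agent.TP73
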