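import Pool.Agent.TP73.Right
import Pool.Agent.TP73.Left

/-!
# The recursion of the two-plateau series
-/

set_option autoImplicit false

namespace Pool.Agent.TP73

open Pool.Agent.MV68

theorem GG_rec_S (y : ENNReal) (a b : ℕ) (hb : b < 4) :
    (if a % 4 = 0 ∧ b % 4 = 0 then 1 else 0) +
      y * (∑ c ∈ Finset.range 4, if be c = al a + 1 then GG y (a + 1) c * WB y (c + 1) b else 0) +
      y * (∑ g ∈ Finset.range 4, if al g = al a + 1 then WA y (a + 1) g * GG y (g + 1) b else 0) ≤
    GG y a b := by
  refine le_trans ?_ (GG_split y a b)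
  rw [add_assoc]
  refine add_le_add (le_refl _) ?_
  refine le_trans (add_le_add (right_le y a b hb) (left_le y a b)) (le_of_eq ?_)
  rw [← ENNReal.tsum_add]
  refine tsum_congr fun i => ?_
  rw [← ENNReal.tsum_add]
  refine tsum_congr fun k => ?_
  rw [← ENNReal.tsum_add]
  refine tsum_congr fun l => ?_
  by_cases h : i ≤ 2 * k
  · rw [if_pos h, if_pos h, add_zero]
  · rw [if_neg h, if_neg h, zero_add]

end Pool.Agent.TP73
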