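import Pool.Agent.TP73.Defs

/-!
# Lower bounds for the local series at the critical value

`w = Wg p0 p2`, `Wg_rec` (lists of targets: `p0`: `[p1, p3]`, `p1`: `[p2]`, `p3`: `[p2]`) gives
`W33 ≥ 1 + y w W33`, `W13 ≥ y W22 W33 ≥ y W33`, `w ≥ y (W11 W22 + W13 w) ≥ y (1 + W13 w)`,
`W00 ≥ 1 + y W13 W00` (`Wg_mod` for the index 4). If `w = ⊤` or `W33 = ⊤` then `w = ⊤` (`w ≥ y > 0`), and all is
clear. Otherwise `y w < 1`, `y w ^ 2 - w + y ≤ 0`, `w ≥ √2 / 2`, `W33 ≥ 3 / 2`, `W13 ≥ √2 / 2`,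
`W00 ≥ 3 / 2` (real numbers, `y = √2 / 3`).
-/

set_option autoImplicit false

namespace Pool.Agent.TP73

open Pool.Agent.MV68

theorem yc_pos : 0 < yc := by
  unfold yc
  rw [ENNReal.ofReal_pos]
  positivity

theorem yc_ne_top : yc ≠ ⊤ := ENNReal.ofReal_ne_top

theorem yc_toReal : yc.toReal = √2 / 3 := ENNReal.toReal_ofReal (by positivity)

/-- the numerical part -/
theorem wlow_num {w u v q : ENNReal} (hu : 1 + yc * (w * u) ≤ u) (hv : yc * u ≤ v)
    (hw : yc * (1 + v * w) ≤ w) (hq : 1 + yc * (v * q) ≤ q) :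
    (ENNReal.ofReal (√2 / 2) ≤ w ∧ ENNReal.ofReal (√2 / 2) ≤ v) ∧
      ENNReal.ofReal (3 / 2) ≤ q ∧ ENNReal.ofReal (3 / 2) ≤ u := by
  have hy := yc_pos
  have hyt := yc_ne_top
  have hu1 : 1 ≤ u := le_trans le_self_add hu
  have hq1 : 1 ≤ q := le_trans le_self_add hq
  have hwy : yc ≤ w := by
    refine le_trans ?_ hw
    calc yc = yc * 1 := (mul_one _).symm
      _ ≤ yc * (1 + v * w) := mul_le_mul_right le_self_add _
  have hw0 : w ≠ 0 := (lt_of_lt_of_le hy hwy).ne'
  have hu0 : u ≠ 0 := (lt_of_lt_of_le one_pos hu1).ne'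
  have hq0 : q ≠ 0 := (lt_of_lt_of_le one_pos hq1).ne'
  by_cases hwt : w = ⊤
  · have h1 : u = ⊤ := by
      rw [hwt, ENNReal.top_mul hu0, ENNReal.mul_top hy.ne', add_top, top_le_iff] at hu
      exact hu
    have h2 : v = ⊤ := by
      rw [h1, ENNReal.mul_top hy.ne', top_le_iff] at hv
      exact hv
    have h3 : q = ⊤ := by
      rw [h2, ENNReal.top_mul hq0, ENNReal.mul_top hy.ne', add_top, top_le_iff] at hq
      exact hq
    rw [hwt, h1, h2, h3]
    exact ⟨⟨le_top, le_top⟩, le_top, le_top⟩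
  · have hvt : v ≠ ⊤ := by
      intro h
      rw [h, ENNReal.top_mul hw0, add_top, ENNReal.mul_top hy.ne', top_le_iff] at hw
      exact hwt hw
    have hut : u ≠ ⊤ := by
      intro h
      rw [h, ENNReal.mul_top hy.ne', top_le_iff] at hv
      exact hvt hv
    have hs2 : (0 : ℝ) ≤ √2 := Real.sqrt_nonneg 2
    have hs : √2 * √2 = 2 := Real.mul_self_sqrt (by norm_num)
    have hs0 : (0 : ℝ) < √2 := Real.sqrt_pos.2 (by norm_num)
    set Y : ℝ := √2 / 3 with hY
    have hYY : Y * Y = 2 / 9 := by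
      rw [hY]
      nlinarith
    have hY0 : 0 < Y := by positivity
    -- real inequalities
    have ru : 1 + Y * (w.toReal * u.toReal) ≤ u.toReal := by
      have h := ENNReal.toReal_mono hut hu
      rw [ENNReal.toReal_add ENNReal.one_ne_top (ENNReal.mul_ne_top hyt (ENNReal.mul_ne_top hwt hut)),
        ENNReal.toReal_one, ENNReal.toReal_mul, ENNReal.toReal_mul, yc_toReal] at h
      exact h
    have rv : Y * u.toReal ≤ v.toReal := by
      have h := ENNReal.toReal_mono hvt hv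
      rw [ENNReal.toReal_mul, yc_toReal] at h
      exact h
    have rw' : Y * (1 + v.toReal * w.toReal) ≤ w.toReal := by
      have h := ENNReal.toReal_mono hwt hw
      rw [ENNReal.toReal_mul, ENNReal.toReal_add ENNReal.one_ne_top (ENNReal.mul_ne_top hvt hwt),
        ENNReal.toReal_one, ENNReal.toReal_mul, yc_toReal] at h
      exact h
    set W := w.toReal with hW
    set U := u.toReal with hU
    set V := v.toReal with hV
    have hW0 : 0 ≤ W := ENNReal.toReal_nonneg
    have hU0 : 0 < U := by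
      have : 0 ≤ Y * (W * U) := mul_nonneg hY0.le (mul_nonneg hW0 ENNReal.toReal_nonneg)
      linarith
    have hyw : 0 < 1 - Y * W := by
      by_contra h
      push Not at h
      nlinarith
    have hquad : Y * (W * W) - W + Y ≤ 0 := by
      have h1 : Y * (1 + Y * U * W) ≤ W := by
        have : Y * U * W ≤ V * W := mul_le_mul_of_nonneg_right rv hW0
        nlinarith
      -- U ≥ 1 / (1 - Y W)
      have h2 : 1 ≤ U * (1 - Y * W) := by nlinarith
      have h3 : Y * (1 - Y * W) + Y * Y * W * (U * (1 - Y * W)) ≤ W * (1 - Y * W) := by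
        have := mul_le_mul_of_nonneg_right h1 hyw.le
        nlinarith
      have h4 : Y * Y * W * 1 ≤ Y * Y * W * (U * (1 - Y * W)) :=
        mul_le_mul_of_nonneg_left h2 (by positivity)
      nlinarith
    have hWl : √2 / 2 ≤ W := by
      by_contra h
      push Not at h
      -- (W - √2/2)(W - √2) > 0
      have h1 : 0 < (√2 / 2 - W) * (√2 - W) := mul_pos (by linarith) (by linarith)
      have h2 : √2 * (Y * (W * W) - W + Y) = 2 / 3 * ((√2 / 2 - W) * (√2 - W)) := by
        rw [hY]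
        have : (√2 / 2 - W) * (√2 - W) = √2 * √2 / 2 - √2 * W * (3 / 2) + W * W := by ring
        rw [this, hs]
        have e : √2 * (√2 / 3 * (W * W) - W + √2 / 3) =
            (√2 * √2) / 3 * (W * W) - √2 * W + (√2 * √2) / 3 := by ring
        rw [e, hs]
        ring
      have h3 : √2 * (Y * (W * W) - W + Y) ≤ 0 := mul_nonpos_of_nonneg_of_nonpos hs2 hquad
      linarith
    have hYW : 1 / 3 ≤ Y * W := by
      have : Y * (√2 / 2) ≤ Y * W := mul_le_mul_of_nonneg_left hWl hY0.le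
      have e : Y * (√2 / 2) = 1 / 3 := by
        rw [hY]
        have : √2 / 3 * (√2 / 2) = √2 * √2 / 6 := by ring
        rw [this, hs]
        norm_num
      linarith
    have hUl : 3 / 2 ≤ U := by nlinarith
    have hVl : √2 / 2 ≤ V := by
      have h1 : Y * (3 / 2) ≤ Y * U := mul_le_mul_of_nonneg_left hUl hY0.le
      have e : Y * (3 / 2) = √2 / 2 := by
        rw [hY]
        ring
      linarith
    refine ⟨⟨?_, ?_⟩, ?_, ?_⟩
    · exact (ENNReal.ofReal_le_iff_le_toReal hwt).2 hWl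
    · exact (ENNReal.ofReal_le_iff_le_toReal hvt).2 hVl
    · by_cases hqt : q = ⊤
      · rw [hqt]
        exact le_top
      · have rq : 1 + Y * (V * q.toReal) ≤ q.toReal := by
          have h := ENNReal.toReal_mono hqt hq
          rw [ENNReal.toReal_add ENNReal.one_ne_top
              (ENNReal.mul_ne_top hyt (ENNReal.mul_ne_top hvt hqt)),
            ENNReal.toReal_one, ENNReal.toReal_mul, ENNReal.toReal_mul, yc_toReal] at h
          exact h
        rw [ENNReal.ofReal_le_iff_le_toReal hqt]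
        have hYV : 1 / 3 ≤ Y * V := by
          have : Y * (√2 / 2) ≤ Y * V := mul_le_mul_of_nonneg_left hVl hY0.le
          have e : Y * (√2 / 2) = 1 / 3 := by
            rw [hY]
            have : √2 / 3 * (√2 / 2) = √2 * √2 / 6 := by ring
            rw [this, hs]
            norm_num
          linarith
        have hQ0 : 0 ≤ q.toReal := ENNReal.toReal_nonneg
        nlinarith
    · exact (ENNReal.ofReal_le_iff_le_toReal hut).2 hUl

theorem zig_low {T : ℕ → ℤ} (hT : ∀ z, T (z + 4) = T z) (p0 p1 p2 p3 : ℕ) (h0 : p0 < 4)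
    (h1 : p1 = (p0 + 1) % 4) (h2 : p2 = (p0 + 2) % 4) (h3 : p3 = (p0 + 3) % 4)
    (t1 : T p1 = T p0 + 1) (t2 : T p2 = T p0 + 2) (t3 : T p3 = T p0 + 1) :
    (ENNReal.ofReal (√2 / 2) ≤ Wg T 4 yc p0 p2 ∧ ENNReal.ofReal (√2 / 2) ≤ Wg T 4 yc p1 p3) ∧
      (ENNReal.ofReal (3 / 2) ≤ Wg T 4 yc p0 p0 ∧ ENNReal.ofReal (3 / 2) ≤ Wg T 4 yc p3 p3) ∧
      1 ≤ Wg T 4 yc p1 p1 ∧ 1 ≤ Wg T 4 yc p2 p2 := by
  have e1 : ∀ b, Wg T 4 yc (p0 + 1) b = Wg T 4 yc p1 b := fun b => by
    rw [h1, Wg_mod hT]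
  have e2 : ∀ b, Wg T 4 yc (p1 + 1) b = Wg T 4 yc p2 b := fun b => by
    have : p2 = (p1 + 1) % 4 := by omega
    rw [this, Wg_mod hT]
  have e3 : ∀ b, Wg T 4 yc (p2 + 1) b = Wg T 4 yc p3 b := fun b => by
    have : p3 = (p2 + 1) % 4 := by omega
    rw [this, Wg_mod hT]
  have e0 : ∀ b, Wg T 4 yc (p3 + 1) b = Wg T 4 yc p0 b := fun b => by
    have h : (p3 + 1) % 4 = p0 := by omega
    rw [← Wg_mod hT yc (p3 + 1) b, h]
  have d13 : p1 ≠ p3 := by omega
  have one_le : ∀ a, a < 4 → 1 ≤ Wg T 4 yc a a := fun a ha => by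
    have h := Wg_rec (by norm_num : 0 < 4) hT yc a a [] List.nodup_nil (by simp)
    rw [if_pos (Nat.mod_eq_of_lt ha)] at h
    exact le_trans le_self_add h
  have w11 := one_le p1 (by omega)
  have w22 := one_le p2 (by omega)
  have r02 := Wg_rec (by norm_num : 0 < 4) hT yc p0 p2 [p1, p3]
    (by simp [d13]) (by
      intro c hc
      rcases List.mem_cons.1 hc with rfl | hc
      · exact ⟨by omega, t1⟩
      · rw [List.mem_singleton] at hc
        subst hc
        exact ⟨by omega, t3⟩)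
  have r00 := Wg_rec (by norm_num : 0 < 4) hT yc p0 p0 [p1, p3]
    (by simp [d13]) (by
      intro c hc
      rcases List.mem_cons.1 hc with rfl | hc
      · exact ⟨by omega, t1⟩
      · rw [List.mem_singleton] at hc
        subst hc
        exact ⟨by omega, t3⟩)
  have r13 := Wg_rec (by norm_num : 0 < 4) hT yc p1 p3 [p2]
    (List.nodup_singleton _) (by
      intro c hc
      rw [List.mem_singleton] at hc
      subst hc
      exact ⟨by omega, by rw [t2, t1]; ring⟩)
  have r33 := Wg_rec (by norm_num : 0 < 4) hT yc p3 p3 [p2]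
    (List.nodup_singleton _) (by
      intro c hc
      rw [List.mem_singleton] at hc
      subst hc
      exact ⟨by omega, by rw [t2, t3]; ring⟩)
  simp only [List.map_cons, List.map_nil, List.sum_cons, List.sum_nil, add_zero, e0, e1, e2, e3]
    at r02 r00 r13 r33
  rw [if_pos (Nat.mod_eq_of_lt h0)] at r00
  rw [if_pos (Nat.mod_eq_of_lt (by omega : p3 < 4))] at r33
  have hw : yc * (1 + Wg T 4 yc p1 p3 * Wg T 4 yc p0 p2) ≤ Wg T 4 yc p0 p2 := by
    refine le_trans ?_ r02
    refine le_trans ?_ le_add_self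
    refine mul_le_mul_right (add_le_add ?_ le_rfl) _
    calc (1 : ENNReal) = 1 * 1 := (one_mul 1).symm
      _ ≤ _ := mul_le_mul' w11 w22
  have hv : yc * Wg T 4 yc p3 p3 ≤ Wg T 4 yc p1 p3 := by
    refine le_trans ?_ r13
    refine le_trans ?_ le_add_self
    refine mul_le_mul_right ?_ _
    calc Wg T 4 yc p3 p3 = 1 * Wg T 4 yc p3 p3 := (one_mul _).symm
      _ ≤ _ := mul_le_mul' w22 le_rfl
  have hq : 1 + yc * (Wg T 4 yc p1 p3 * Wg T 4 yc p0 p0) ≤ Wg T 4 yc p0 p0 := by
    refine le_trans ?_ r00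
    exact add_le_add le_rfl (mul_le_mul_right le_add_self _)
  obtain ⟨⟨a1, a2⟩, a3, a4⟩ := wlow_num r33 hv hw hq
  exact ⟨⟨a1, a2⟩, ⟨a3, a4⟩, w11, w22⟩

end Pool.Agent.TP73
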