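import Pool.Agent.TP73.TopRecS
import Pool.Agent.TP73.WLow

set_option autoImplicit false

namespace Pool.Agent.TP73.TopS

open Pool.Agent.MV68 Pool.Agent.TP73

theorem WA_low : (ENNReal.ofReal (√2 / 2) ≤ WA yc 0 2 ∧ ENNReal.ofReal (√2 / 2) ≤ WA yc 1 3) ∧
    (ENNReal.ofReal (3 / 2) ≤ WA yc 0 0 ∧ ENNReal.ofReal (3 / 2) ≤ WA yc 3 3) ∧
    1 ≤ WA yc 1 1 ∧ 1 ≤ WA yc 2 2 :=
  zig_low (T := fun z : ℕ => al z) (fun z => by push_cast; exact al_add _) 0 1 2 3 (by omega) rfl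
    rfl rfl (by decide) (by decide) (by decide)

theorem WB_low : (ENNReal.ofReal (√2 / 2) ≤ WB yc 1 3 ∧ ENNReal.ofReal (√2 / 2) ≤ WB yc 2 0) ∧
    (ENNReal.ofReal (3 / 2) ≤ WB yc 1 1 ∧ ENNReal.ofReal (3 / 2) ≤ WB yc 0 0) ∧
    1 ≤ WB yc 2 2 ∧ 1 ≤ WB yc 3 3 :=
  zig_low (T := fun z : ℕ => be z) (fun z => by push_cast; exact be_add _) 1 2 3 0 (by omega) rfl
    rfl rfl (by decide) (by decide) (by decide)

theorem WA4 (y : ENNReal) (b : ℕ) : WA y 4 b = WA y 0 b := by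
  have h := Wg_mod (T := fun z : ℕ => al z) (p := 4) (fun z => by push_cast; exact al_add _) y 4 b
  exact h.symm

theorem WB4 (y : ENNReal) (b : ℕ) : WB y 4 b = WB y 0 b := by
  have h := Wg_mod (T := fun z : ℕ => be z) (p := 4) (fun z => by push_cast; exact be_add _) y 4 b
  exact h.symm

theorem GG4 (y : ENNReal) (b : ℕ) : GG y 4 b = GG y 0 b := GG_add y 0 b

theorem two_le {a b c d e : ENNReal} (h : a + b * c + b * (d + e) ≤ c) : a ≤ c :=
  le_trans (le_trans le_self_add le_self_add) h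

theorem g11 : yc * (GG yc 2 0 * ENNReal.ofReal (3/2) + GG yc 3 1) ≤ GG yc 1 1 := by
  have h := GG_rec_S yc 1 1 (by omega)
  simp only [Finset.sum_range_succ, Finset.sum_range_zero] at h
  norm_num [al, be] at h
  refine le_trans ?_ h
  rw [mul_add]
  refine add_le_add (mul_le_mul_right ?_ _) (mul_le_mul_right ?_ _)
  · exact le_trans (mul_le_mul_right WB_low.2.1.1 _) le_self_add
  · calc GG yc 3 1 = 1 * GG yc 3 1 := (one_mul _).symm
      _ ≤ _ := mul_le_mul_left WA_low.2.2.2 _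

theorem one_mul_le {a b : ENNReal} (h : 1 ≤ a) : b ≤ a * b := by
  calc b = 1 * b := (one_mul _).symm
    _ ≤ _ := mul_le_mul_left h _

theorem g00 : 1 + yc * (GG yc 1 1 * ENNReal.ofReal (√2/2)) +
    yc * (GG yc 2 0 + ENNReal.ofReal (√2/2) * GG yc 0 0) ≤ GG yc 0 0 := by
  have h := GG_rec_S yc 0 0 (by omega)
  simp only [Finset.sum_range_succ, Finset.sum_range_zero] at h
  norm_num [al, be] at h
  rw [GG4] at h
  refine le_trans ?_ h
  refine add_le_add (add_le_add le_rfl (mul_le_mul_right ?_ _)) (mul_le_mul_right ?_ _)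
  · exact mul_le_mul_right WB_low.1.2 _
  · exact add_le_add (one_mul_le WA_low.2.2.1) (mul_le_mul_left WA_low.1.2 _)

theorem g20 : yc * (GG yc 3 3 * ENNReal.ofReal (3/2)) ≤ GG yc 2 0 := by
  have h := GG_rec_S yc 2 0 (by omega)
  simp only [Finset.sum_range_succ, Finset.sum_range_zero] at h
  norm_num [al, be] at h
  rw [WB4] at h
  refine le_trans ?_ h
  exact mul_le_mul_right (mul_le_mul_right WB_low.2.1.2 _) _

theorem g31 : yc * (GG yc 0 0 * ENNReal.ofReal (3/2)) +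
    yc * (ENNReal.ofReal (√2/2) * GG yc 3 1) ≤ GG yc 3 1 := by
  have h := GG_rec_S yc 3 1 (by omega)
  simp only [Finset.sum_range_succ, Finset.sum_range_zero] at h
  norm_num [al, be] at h
  rw [GG4, WA4] at h
  refine le_trans ?_ h
  refine add_le_add (mul_le_mul_right ?_ _) (mul_le_mul_right ?_ _)
  · exact le_trans (mul_le_mul_right WB_low.2.1.1 _) le_self_add
  · exact mul_le_mul_left WA_low.1.1 _

theorem g33 : yc * (GG yc 0 0 * ENNReal.ofReal (√2/2) + GG yc 0 2) +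
    yc * (ENNReal.ofReal (√2/2) * GG yc 3 3) ≤ GG yc 3 3 := by
  have h := GG_rec_S yc 3 3 (by omega)
  simp only [Finset.sum_range_succ, Finset.sum_range_zero] at h
  norm_num [al, be] at h
  rw [GG4, GG4, WA4] at h
  refine le_trans ?_ h
  refine add_le_add (mul_le_mul_right (add_le_add ?_ ?_) _) (mul_le_mul_right ?_ _)
  · exact mul_le_mul_right WB_low.1.1 _
  · calc GG yc 0 2 = GG yc 0 2 * 1 := (mul_one _).symm
      _ ≤ _ := mul_le_mul_right WB_low.2.2.2 _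
  · exact mul_le_mul_left WA_low.1.1 _

theorem g02 : yc * GG yc 1 1 + yc * (ENNReal.ofReal (√2/2) * GG yc 0 2) ≤ GG yc 0 2 := by
  have h := GG_rec_S yc 0 2 (by omega)
  simp only [Finset.sum_range_succ, Finset.sum_range_zero] at h
  norm_num [al, be] at h
  rw [GG4] at h
  refine le_trans ?_ h
  refine add_le_add (mul_le_mul_right ?_ _) (mul_le_mul_right ?_ _)
  · calc GG yc 1 1 = GG yc 1 1 * 1 := (mul_one _).symm
      _ ≤ _ := mul_le_mul_right WB_low.2.2.1 _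
  · exact le_trans (mul_le_mul_left WA_low.1.2 _) le_add_self

theorem fin_of {a b c : ENNReal} (ha : a ≠ 0) (h : a * b ≤ c) (hc : c ≠ ⊤) : b ≠ ⊤ := by
  rintro rfl
  rw [ENNReal.mul_top ha] at h
  exact hc (top_le_iff.1 h)

theorem GG_top : GG yc 0 0 = ⊤ := by
  by_contra h0
  have hs : (0:ℝ) < √2 := by positivity
  have hy : yc ≠ 0 := (ENNReal.ofReal_pos.2 (by positivity)).ne'
  have hu : ENNReal.ofReal (√2/2) ≠ 0 := (ENNReal.ofReal_pos.2 (by positivity)).ne'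
  have hv : ENNReal.ofReal (3/2) ≠ 0 := (ENNReal.ofReal_pos.2 (by norm_num)).ne'
  have i1 := g11
  have i2 := g00
  have i3 := g20
  have i4 := g31
  have i5 := g33
  have i6 := g02
  have f11 : GG yc 1 1 ≠ ⊤ := by
    refine fin_of (a := yc * ENNReal.ofReal (√2/2)) (mul_ne_zero hy hu) (le_trans ?_ i2) h0
    calc yc * ENNReal.ofReal (√2/2) * GG yc 1 1 = yc * (GG yc 1 1 * ENNReal.ofReal (√2/2)) := by ring
      _ ≤ 1 + yc * (GG yc 1 1 * ENNReal.ofReal (√2/2)) := le_add_self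
      _ ≤ _ := le_self_add
  have f20 : GG yc 2 0 ≠ ⊤ := by
    refine fin_of (a := yc) hy (le_trans ?_ i2) h0
    calc yc * GG yc 2 0 ≤ yc * (GG yc 2 0 + ENNReal.ofReal (√2/2) * GG yc 0 0) :=
          mul_le_mul_right le_self_add _
      _ ≤ _ := le_add_self
  have f33 : GG yc 3 3 ≠ ⊤ := by
    refine fin_of (a := yc * ENNReal.ofReal (3/2)) (mul_ne_zero hy hv) (le_trans ?_ i3) f20
    rw [mul_assoc, mul_comm (ENNReal.ofReal (3/2))]
  have f31 : GG yc 3 1 ≠ ⊤ := by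
    refine fin_of (a := yc) hy (le_trans ?_ i1) f11
    exact mul_le_mul_right le_add_self _
  have f02 : GG yc 0 2 ≠ ⊤ := by
    refine fin_of (a := yc) hy (le_trans ?_ i5) f33
    calc yc * GG yc 0 2 ≤ yc * (GG yc 0 0 * ENNReal.ofReal (√2/2) + GG yc 0 2) :=
          mul_le_mul_right le_add_self _
      _ ≤ _ := le_self_add
  obtain ⟨x00, hx00, e00⟩ : ∃ x : ℝ, 0 ≤ x ∧ GG yc 0 0 = ENNReal.ofReal x :=
    ⟨_, ENNReal.toReal_nonneg, (ENNReal.ofReal_toReal h0).symm⟩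
  obtain ⟨x11, hx11, e11⟩ : ∃ x : ℝ, 0 ≤ x ∧ GG yc 1 1 = ENNReal.ofReal x :=
    ⟨_, ENNReal.toReal_nonneg, (ENNReal.ofReal_toReal f11).symm⟩
  obtain ⟨x20, hx20, e20⟩ : ∃ x : ℝ, 0 ≤ x ∧ GG yc 2 0 = ENNReal.ofReal x :=
    ⟨_, ENNReal.toReal_nonneg, (ENNReal.ofReal_toReal f20).symm⟩
  obtain ⟨x33, hx33, e33⟩ : ∃ x : ℝ, 0 ≤ x ∧ GG yc 3 3 = ENNReal.ofReal x :=
    ⟨_, ENNReal.toReal_nonneg, (ENNReal.ofReal_toReal f33).symm⟩
  obtain ⟨x31, hx31, e31⟩ : ∃ x : ℝ, 0 ≤ x ∧ GG yc 3 1 = ENNReal.ofReal x :=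
    ⟨_, ENNReal.toReal_nonneg, (ENNReal.ofReal_toReal f31).symm⟩
  obtain ⟨x02, hx02, e02⟩ : ∃ x : ℝ, 0 ≤ x ∧ GG yc 0 2 = ENNReal.ofReal x :=
    ⟨_, ENNReal.toReal_nonneg, (ENNReal.ofReal_toReal f02).symm⟩
  have hy0 : (0:ℝ) ≤ √2/3 := by positivity
  have hu0 : (0:ℝ) ≤ √2/2 := by positivity
  have hv0 : (0:ℝ) ≤ 3/2 := by norm_num
  have one : (1 : ENNReal) = ENNReal.ofReal 1 := ENNReal.ofReal_one.symm
  rw [e11, e20, e31] at i1
  rw [e00, e11, e20, one] at i2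
  rw [e33, e20] at i3
  rw [e00, e31] at i4
  rw [e00, e02, e33] at i5
  rw [e11, e02] at i6
  unfold yc at i1 i2 i3 i4 i5 i6
  rw [← ENNReal.ofReal_mul hx20, ← ENNReal.ofReal_add (by positivity) (by positivity),
    ← ENNReal.ofReal_mul hy0, ENNReal.ofReal_le_ofReal_iff hx11] at i1
  rw [← ENNReal.ofReal_mul hx11, ← ENNReal.ofReal_mul hu0, ← ENNReal.ofReal_mul hy0,
    ← ENNReal.ofReal_add (by positivity) (by positivity),
    ← ENNReal.ofReal_add (by positivity) (by positivity), ← ENNReal.ofReal_mul hy0,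
    ← ENNReal.ofReal_add (by positivity) (by positivity), ENNReal.ofReal_le_ofReal_iff hx00] at i2
  rw [← ENNReal.ofReal_mul hx33, ← ENNReal.ofReal_mul hy0, ENNReal.ofReal_le_ofReal_iff hx20] at i3
  rw [← ENNReal.ofReal_mul hx00, ← ENNReal.ofReal_mul hu0, ← ENNReal.ofReal_mul hy0,
    ← ENNReal.ofReal_mul hy0,
    ← ENNReal.ofReal_add (by positivity) (by positivity), ENNReal.ofReal_le_ofReal_iff hx31] at i4
  rw [← ENNReal.ofReal_mul hx00, ← ENNReal.ofReal_mul hu0,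
    ← ENNReal.ofReal_add (by positivity) (by positivity), ← ENNReal.ofReal_mul hy0,
    ← ENNReal.ofReal_mul hy0,
    ← ENNReal.ofReal_add (by positivity) (by positivity), ENNReal.ofReal_le_ofReal_iff hx33] at i5
  rw [← ENNReal.ofReal_mul hu0, ← ENNReal.ofReal_mul hy0, ← ENNReal.ofReal_mul hy0,
    ← ENNReal.ofReal_add (by positivity) (by positivity), ENNReal.ofReal_le_ofReal_iff hx02] at i6
  have h2 : √2 * √2 = 2 := Real.mul_self_sqrt (by norm_num)
  have m3 := mul_le_mul_of_nonneg_left i3 hs.le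
  have m4 := mul_le_mul_of_nonneg_left i4 hs.le
  have m6 := mul_le_mul_of_nonneg_left i6 hs.le
  have k1 : √2 * x20 / 2 + √2 * x31 / 3 ≤ x11 := by nlinarith [i1]
  have k2 : 1 + x11 / 3 + √2 * x20 / 3 + x00 / 3 ≤ x00 := by
    have : √2 / 3 * (x11 * (√2/2)) = (√2 * √2) * x11 / 6 := by ring
    have e2 : √2 / 3 * (x20 + √2 / 2 * x00) = √2 * x20 / 3 + (√2 * √2) * x00 / 6 := by ring
    rw [this, e2, h2] at i2
    linarith
  have k3 : x33 ≤ √2 * x20 := by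
    have : √2 * (√2 / 3 * (x33 * (3/2))) = (√2 * √2) * x33 / 2 := by ring
    rw [this, h2] at m3
    linarith
  have k4 : x00 + √2 * x31 / 3 ≤ √2 * x31 := by
    have : √2 * (√2 / 3 * (x00 * (3/2)) + √2 / 3 * (√2/2 * x31)) =
        (√2 * √2) * x00 / 2 + (√2 * √2) * (√2 * x31) / 6 := by ring
    rw [this, h2] at m4
    linarith
  have k5 : √2 * x02 / 3 + x00 / 3 + x33 / 3 ≤ x33 := by
    have : √2 / 3 * (x00 * (√2/2) + x02) + √2 / 3 * (√2/2 * x33) =
        (√2 * √2) * x00 / 6 + √2 * x02 / 3 + (√2 * √2) * x33 / 6 := by ring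
    rw [this, h2] at i5
    linarith
  have k6 : 2/3 * x11 + √2 * x02 / 3 ≤ √2 * x02 := by
    have : √2 * (√2 / 3 * x11 + √2 / 3 * (√2/2 * x02)) =
        (√2 * √2) * x11 / 3 + (√2 * √2) * (√2 * x02) / 6 := by ring
    rw [this, h2] at m6
    linarith
  linarith

end Pool.Agent.TP73.TopS
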